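import Pool.Agent.Run7.h619.HG.Close

/-!
# Closed orbits of one-parameter groups
-/

set_option autoImplicit false
set_option linter.unusedSectionVars false

open scoped Topology
open Filter Set Metric NormedSpace

namespace Run7.h619.HG

variable {A : Type*} [NormedRing A] [NormedAlgebra ℝ A] [CompleteSpace A] [FiniteDimensional ℝ A]
  {G : Subgroup Aˣ} {g : Submodule ℝ A} {Γ : Subgroup Aˣ} {K : Set Aˣ}

/-- Elements of abelian centralisers: closed orbits close by. -/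
theorem flow_close (hG : IsLie G g) (hK : Coc G Γ K) (hd : DenseLF g Γ) {Z : A} (hZ : Z ∈ g)
    (hss : SS g Z) (hab : Abel g Z) {X : A} (hX : X ∈ cen g Z) (η : ℝ) (hη : 0 < η) :
    ∃ Y ∈ cen g Z, ‖Y - X‖ < η ∧ ∃ U ∈ g, ‖U‖ < η ∧ ∃ n : ℕ, 1 ≤ n ∧
      eu U * eu ((n : ℝ) • Y) * (eu U)⁻¹ ∈ Γ := by
  obtain ⟨X₁, hX₁, hloc, habX, U, hU, hUη, hiff⟩ := good_conj hG hd hZ hss hab η hη
  obtain ⟨D, hD⟩ := latt hG hK hloc habX
  have e1 : ∀ C : A, exp (-U) * (exp U * C * exp (-U)) * exp U = C := by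
    intro C
    calc exp (-U) * (exp U * C * exp (-U)) * exp U =
          (exp (-U) * exp U) * C * (exp (-U) * exp U) := by simp only [mul_assoc]
      _ = C := by rw [exp_neg_mul, one_mul, mul_one]
  have e2 : ∀ C : A, exp U * (exp (-U) * C * exp U) * exp (-U) = C := by
    intro C
    calc exp U * (exp (-U) * C * exp U) * exp (-U) =
          (exp U * exp (-U)) * C * (exp U * exp (-U)) := by simp only [mul_assoc]
      _ = C := by rw [exp_mul_neg, one_mul, mul_one]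
  obtain ⟨M, hM⟩ : ∃ M : ℝ, M = ‖exp (-U)‖ * ‖exp U‖ := ⟨_, rfl⟩
  have hM0 : 0 ≤ M := by rw [hM]; positivity
  obtain ⟨n, hn⟩ := exists_nat_gt (M * max D 0 / η + 1)
  have hn1 : (1 : ℝ) < n := by
    have : 0 ≤ M * max D 0 / η := by positivity
    linarith
  have hn0 : (0 : ℝ) < n := by linarith
  have hnn : 1 ≤ n := by
    have : (0 : ℝ) < n := hn0
    exact_mod_cast Nat.cast_pos.1 this
  have hEm : exp U * X * exp (-U) ∈ cen g X₁ := by
    rw [hiff, e1]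
    exact hX
  obtain ⟨l, hl, hlΓ, hlD⟩ := hD ((n : ℝ) • (exp U * X * exp (-U))) ((cen g X₁).smul_mem _ hEm)
  obtain ⟨Y, hY⟩ : ∃ Y : A, Y = exp (-U) * ((n : ℝ)⁻¹ • l) * exp U := ⟨_, rfl⟩
  have hYc : Y ∈ cen g Z := by
    rw [hY]
    exact (hiff _).1 ((cen g X₁).smul_mem _ hl)
  refine ⟨Y, hYc, ?_, U, hU, hUη, n, hnn, ?_⟩
  · have h1 : Y - X = exp (-U) * ((n : ℝ)⁻¹ • (l - (n : ℝ) • (exp U * X * exp (-U)))) * exp U := by
      rw [smul_sub, smul_smul, inv_mul_cancel₀ hn0.ne', one_smul, mul_sub, sub_mul, e1, hY]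
    have h2 : ‖l - (n : ℝ) • (exp U * X * exp (-U))‖ ≤ max D 0 := by
      rw [norm_sub_rev]
      exact hlD.trans (le_max_left _ _)
    have h3 : ‖Y - X‖ ≤ M * ((n : ℝ)⁻¹ * max D 0) := by
      rw [h1, hM]
      refine (norm_mul_le _ _).trans ?_
      have h4 : ‖exp (-U) * ((n : ℝ)⁻¹ • (l - (n : ℝ) • (exp U * X * exp (-U))))‖ ≤
          ‖exp (-U)‖ * ((n : ℝ)⁻¹ * max D 0) := by
        refine (norm_mul_le _ _).trans (mul_le_mul_of_nonneg_left ?_ (norm_nonneg _))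
        rw [norm_smul, norm_inv, Real.norm_of_nonneg hn0.le]
        exact mul_le_mul_of_nonneg_left h2 (by positivity)
      refine (mul_le_mul_of_nonneg_right h4 (norm_nonneg _)).trans (le_of_eq ?_)
      ring
    refine h3.trans_lt ?_
    have h5 : M * ((n : ℝ)⁻¹ * max D 0) = M * max D 0 / n := by
      rw [div_eq_mul_inv]
      ring
    rw [h5, div_lt_iff₀ hn0]
    have h6 : M * max D 0 / η < n := by linarith
    rw [div_lt_iff₀ hη] at h6
    linarith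
  · have h1 : eu U * eu ((n : ℝ) • Y) * (eu U)⁻¹ = eu l := by
      rw [← eu_conj]
      congr 1
      show exp U * ((n : ℝ) • Y) * exp (-U) = l
      rw [mul_smul_comm, smul_mul_assoc, hY, e2, smul_smul, mul_inv_cancel₀ hn0.ne', one_smul]
    rw [h1]
    exact hlΓ

/-- Elements of abelian Cartan subalgebras are dense. -/
theorem reg_dense (hG : IsLie G g) (hC : HasCartan g) {X : A} (hX : X ∈ g) (ε : ℝ) (hε : 0 < ε) :
    ∃ X' ∈ g, ‖X' - X‖ < ε ∧ ∃ Z ∈ g, SS g Z ∧ Abel g Z ∧ X' ∈ cen g Z := by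
  obtain ⟨ρ, hρ, hcomm⟩ := comm_of_exp A
  obtain ⟨Y, hY, hss, hab, hYρ⟩ := small_cartan hC ρ hρ
  obtain ⟨π, hπ⟩ := exists_proj hss
  have hPP := PP_exp hG hY hss hπ hcomm hYρ
  obtain ⟨δ, hδ⟩ : ∃ δ : ℝ, δ = ρ / (2 * (‖X‖ + 1)) := ⟨_, rfl⟩
  have hδ0 : 0 < δ := by rw [hδ]; positivity
  have hδX : ‖δ • X‖ < ρ := by
    rw [norm_smul, Real.norm_of_nonneg hδ0.le, hδ, div_mul_eq_mul_div, div_lt_iff₀ (by positivity)]
    nlinarith [norm_nonneg X]
  obtain ⟨W, hW⟩ : ∃ W : ℝ → A, W = fun t => δ • X + t • (Y - δ • X) := ⟨_, rfl⟩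
  have hWg : ∀ t, W t ∈ g := by
    intro t
    rw [hW]
    exact g.add_mem (g.smul_mem _ hX) (g.smul_mem _ (g.sub_mem hY (g.smul_mem _ hX)))
  have hWan : An W := by
    rw [hW]
    intro t
    exact analyticAt_const.add (analyticAt_id.smul analyticAt_const)
  have hW0 : W 0 = δ • X := by rw [hW]; simp
  have hW1 : W 1 = Y := by rw [hW]; simp
  have hWc : Continuous W := by
    rw [hW]
    fun_prop
  have h1 : ∃ᶠ t in 𝓝 (0 : ℝ), PP Y π (eu (W t)) ≠ 0 := by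
    refine (an_PP Y π (ac_eu hWan)).frequently_ne (t := 1) ?_
    rw [hW1]
    exact hPP
  have h2 : ∀ᶠ t in 𝓝 (0 : ℝ), ‖W t‖ < ρ := by
    have := (hWc.norm).tendsto 0
    rw [hW0] at this
    exact this.eventually (gt_mem_nhds hδX)
  have h3 : ∀ᶠ t in 𝓝 (0 : ℝ), ‖W t - δ • X‖ < δ * ε := by
    have hcc : Continuous fun t => ‖W t - δ • X‖ := (hWc.sub continuous_const).norm
    have := hcc.tendsto (0 : ℝ)
    rw [hW0, sub_self, norm_zero] at this
    exact this.eventually (gt_mem_nhds (by positivity))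
  obtain ⟨t, ht1, ht2, ht3⟩ := (h1.and_eventually (h2.and h3)).exists
  obtain ⟨Z, hZ, hZss, hZab, hZc⟩ := reg_of_PP hG hY hss hπ
    (ident_all hG hY hss hab hπ hcomm hYρ (hG.exp_mem _ (hWg t))) ht1
  have h4 : Commute Z (W t) := hcomm _ _ ht2 (hZc Z ⟨hZ, Commute.refl Z⟩).symm
  refine ⟨δ⁻¹ • W t, g.smul_mem _ (hWg t), ?_, Z, hZ, hZss, hZab, g.smul_mem _ (hWg t),
    h4.smul_right _⟩
  have h5 : δ⁻¹ • W t - X = δ⁻¹ • (W t - δ • X) := by
    rw [smul_sub, smul_smul, inv_mul_cancel₀ hδ0.ne', one_smul]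
  rw [h5, norm_smul, norm_inv, Real.norm_of_nonneg hδ0.le, inv_mul_lt_iff₀ hδ0]
  exact ht3

/-- the elements of `g` whose one-parameter groups are contained in `Γ` -/
def S0 (g : Submodule ℝ A) (Γ : Subgroup Aˣ) : Set A := {X | X ∈ g ∧ ∀ t : ℝ, eu (t • X) ∈ Γ}

/-- They are central. -/
theorem S0_central (hd : DenseLF g Γ) {X : A} (hX : X ∈ S0 g Γ) {Y : A} (hY : Y ∈ g) :
    Commute X Y := by
  obtain ⟨ρ, hρ, hcomm⟩ := comm_of_exp A
  have key : ∀ X₁ : A, LocFin Γ X₁ → Commute X X₁ := by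
    intro X₁ hloc
    obtain ⟨c, hc⟩ : ∃ c : ℝ → A, c = fun t => (((eu (t • X))⁻¹ : Aˣ) : A) * X₁ * ((eu (t • X) : Aˣ) : A) :=
      ⟨_, rfl⟩
    have hcc : Continuous c := by
      rw [hc]
      have h1 : Continuous fun t : ℝ => t • X := continuous_id.smul continuous_const
      have h2 : Continuous fun t : ℝ => ((eu (t • X) : Aˣ) : A) := exp_cont.comp h1
      have h3 : Continuous fun t : ℝ => (((eu (t • X))⁻¹ : Aˣ) : A) := exp_cont.comp h1.neg
      exact (h3.mul continuous_const).mul h2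
    obtain ⟨R, hR⟩ := (isCompact_Icc (a := (0 : ℝ)) (b := 1)).exists_bound_of_continuousOn
      hcc.continuousOn
    have hsub : c '' Icc 0 1 ⊆ {Z : A | ‖Z‖ ≤ R ∧ ∃ γ ∈ Γ, Z = ((γ⁻¹ : Aˣ) : A) * X₁ * (γ : A)} := by
      rintro _ ⟨t, ht, rfl⟩
      refine ⟨hR t ht, eu (t • X), hX.2 t, ?_⟩
      rw [hc]
    have hconn : IsPreconnected (c '' Icc 0 1) := isPreconnected_Icc.image _ hcc.continuousOn
    have hss : (c '' Icc (0 : ℝ) 1).Subsingleton :=
      (hloc R).countable.isTotallyDisconnected _ hsub hconn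
    obtain ⟨t, ht0, ht1, htρ⟩ : ∃ t : ℝ, 0 < t ∧ t ≤ 1 ∧ ‖t • X‖ < ρ := by
      refine ⟨min 1 (ρ / (2 * (‖X‖ + 1))), lt_min one_pos (by positivity), min_le_left _ _, ?_⟩
      have h0 : 0 ≤ min 1 (ρ / (2 * (‖X‖ + 1))) := by positivity
      rw [norm_smul, Real.norm_of_nonneg h0]
      have h1 : min 1 (ρ / (2 * (‖X‖ + 1))) * ‖X‖ ≤ ρ / (2 * (‖X‖ + 1)) * ‖X‖ :=
        mul_le_mul_of_nonneg_right (min_le_right _ _) (norm_nonneg _)
      have h2 : ρ / (2 * (‖X‖ + 1)) * ‖X‖ < ρ := by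
        rw [div_mul_eq_mul_div, div_lt_iff₀ (by positivity)]
        nlinarith [norm_nonneg X]
      linarith
    have h1 : c t = c 0 := hss ⟨t, ⟨ht0.le, ht1⟩, rfl⟩ ⟨0, ⟨le_rfl, zero_le_one⟩, rfl⟩
    have h2 : c 0 = X₁ := by
      rw [hc]
      simp only [zero_smul, eu_zero, inv_one, Units.val_one, one_mul, mul_one]
    have h3 : Commute X₁ (exp (t • X)) := by
      rw [h2, hc] at h1
      simp only at h1
      show X₁ * exp (t • X) = exp (t • X) * X₁
      calc X₁ * exp (t • X) = ((eu (t • X) : Aˣ) : A) * ((((eu (t • X))⁻¹ : Aˣ) : A) * X₁ *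
            ((eu (t • X) : Aˣ) : A)) := by
            rw [← mul_assoc, ← mul_assoc, Units.mul_inv, one_mul]
            rfl
        _ = exp (t • X) * X₁ := by rw [h1]; rfl
    have h4 := hcomm _ _ htρ h3
    have h5 := h4.symm.smul_left t⁻¹
    rwa [smul_smul, inv_mul_cancel₀ ht0.ne', one_smul] at h5
  -- density
  have hcl : IsClosed {Z : A | Commute X Z} := by
    have h1 : {Z : A | Commute X Z} = {Z : A | X * Z = Z * X} := rfl
    rw [h1]
    exact isClosed_eq (continuous_const.mul continuous_id) (continuous_id.mul continuous_const)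
  have hmem : Y ∈ closure {Z : A | Commute X Z} := by
    rw [Metric.mem_closure_iff]
    intro ε hε
    obtain ⟨X₁, -, hX₁, hloc⟩ := hd Y hY ε hε
    exact ⟨X₁, key X₁ hloc, by rwa [dist_comm, dist_eq_norm]⟩
  rw [hcl.closure_eq] at hmem
  exact hmem

/-- **Nontrivial closed orbits are dense.** -/
theorem closed_orbits (hG : IsLie G g) (hC : HasCartan g) (hK : Coc G Γ K) (hd : DenseLF g Γ)
    (hcl : ∀ X, (∃ᶠ Y in 𝓝 X, Y ∈ S0 g Γ) → X ∈ S0 g Γ) (hne : ∃ u ∈ G, u ∉ Γ) {W : A} (hW : W ∈ g)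
    (ε : ℝ) (hε : 0 < ε) :
    ∃ Y ∈ g, ‖Y - W‖ < ε ∧ ∃ U ∈ g, ‖U‖ < ε ∧ ∃ T : ℝ, 0 < T ∧
      eu U * eu (T • Y) * (eu U)⁻¹ ∈ Γ ∧ ∃ s : ℝ, eu U * eu (s • Y) * (eu U)⁻¹ ∉ Γ := by
  -- an element which is not in `S0`
  obtain ⟨Vv, hVv, hVS⟩ : ∃ X ∈ g, X ∉ S0 g Γ := by
    by_contra hcon
    push Not at hcon
    obtain ⟨u, hu, huΓ⟩ := hne
    apply huΓ
    obtain ⟨L, hL, rfl⟩ := hG.conn u hu
    apply Subgroup.list_prod_mem
    intro x hx
    obtain ⟨X, hX, rfl⟩ := List.mem_map.1 hx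
    have := (hcon X (hL X hX)).2 1
    rwa [one_smul] at this
  obtain ⟨X, hX, hXW, hXS⟩ : ∃ X ∈ g, ‖X - W‖ < ε / 3 ∧ X ∉ S0 g Γ := by
    by_cases hWS : W ∈ S0 g Γ
    · obtain ⟨t, ht0, ht⟩ : ∃ t : ℝ, 0 < t ∧ t * ‖Vv‖ < ε / 3 := by
        refine ⟨ε / (3 * (‖Vv‖ + 1)), by positivity, ?_⟩
        rw [div_mul_eq_mul_div, div_lt_div_iff₀ (by positivity) (by norm_num)]
        nlinarith [norm_nonneg Vv]
      refine ⟨W + t • Vv, g.add_mem hW (g.smul_mem _ hVv), ?_, ?_⟩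
      · rw [add_sub_cancel_left, norm_smul, Real.norm_of_nonneg ht0.le]
        exact ht
      · intro hcon
        apply hVS
        refine ⟨hVv, fun s => ?_⟩
        have h1 := hcon.2 (s / t)
        have h2 := hWS.2 (s / t)
        have hc : Commute W Vv := S0_central hd hWS hVv
        have h3 : (s / t) • (W + t • Vv) = (s / t) • W + s • Vv := by
          rw [smul_add, smul_smul, div_mul_cancel₀ _ ht0.ne']
        rw [h3, eu_add ((hc.smul_left _).smul_right _)] at h1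
        exact (Subgroup.mul_mem_cancel_left Γ h2).1 h1
    · exact ⟨W, hW, by rw [sub_self, norm_zero]; positivity, hWS⟩
  -- a ball without elements of `S0`
  obtain ⟨δ, hδ, hδS⟩ : ∃ δ : ℝ, 0 < δ ∧ ∀ Y, ‖Y - X‖ < δ → Y ∉ S0 g Γ := by
    by_contra hcon
    push Not at hcon
    apply hXS
    apply hcl
    rw [Metric.nhds_basis_ball.frequently_iff]
    intro δ hδ
    obtain ⟨Y, hY1, hY2⟩ := hcon δ hδ
    exact ⟨Y, by rwa [mem_ball, dist_eq_norm], hY2⟩
  obtain ⟨X', hX', hX'X, Z, hZ, hss, hab, hX'Z⟩ := reg_dense hG hC hX (min (δ / 2) (ε / 3))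
    (by positivity)
  obtain ⟨Y, hY, hYX, U, hU, hUn, n, hn, hγ⟩ := flow_close hG hK hd hZ hss hab hX'Z
    (min (δ / 2) (ε / 3)) (by positivity)
  have h1 := lt_of_lt_of_le hX'X (min_le_left _ _)
  have h2 := lt_of_lt_of_le hX'X (min_le_right _ _)
  have h3 := lt_of_lt_of_le hYX (min_le_left _ _)
  have h4 := lt_of_lt_of_le hYX (min_le_right _ _)
  have h5 := lt_of_lt_of_le hUn (min_le_right _ _)
  have e1 : Y - X = (Y - X') + (X' - X) := by abel
  have e2 : Y - W = (Y - X') + (X' - X) + (X - W) := by abel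
  have h6 : ‖Y - X‖ < δ := by
    rw [e1]
    refine (norm_add_le _ _).trans_lt ?_
    linarith
  have h7 : ‖Y - W‖ < ε := by
    rw [e2]
    refine (norm_add₃_le).trans_lt ?_
    linarith
  have hn0 : (0 : ℝ) < n := by exact_mod_cast hn
  refine ⟨Y, hY.1, h7, U, hU, by linarith, n, hn0, hγ, ?_⟩
  by_contra hcon
  push Not at hcon
  -- the conjugate of `Y` lies in `S0`, so it is central
  have h8 : exp U * Y * exp (-U) ∈ S0 g Γ := by
    refine ⟨ad_mem hG (hG.exp_mem U hU) hY.1, fun t => ?_⟩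
    have h9 := hcon t
    rw [← eu_conj] at h9
    have e3 : ((eu U : Aˣ) : A) * t • Y * (((eu U)⁻¹ : Aˣ) : A) = t • (exp U * Y * exp (-U)) := by
      rw [mul_smul_comm, smul_mul_assoc]
      rfl
    rwa [e3] at h9
  have h9 : Commute (exp U * Y * exp (-U)) (exp U) := (S0_central hd h8 hU).exp_right
  have h10 : exp U * Y * exp (-U) = Y := by
    have h11 : exp (-U) * (exp U * Y * exp (-U)) * exp U = Y := by
      calc exp (-U) * (exp U * Y * exp (-U)) * exp U =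
            (exp (-U) * exp U) * Y * (exp (-U) * exp U) := by simp only [mul_assoc]
        _ = Y := by rw [exp_neg_mul, one_mul, mul_one]
    rw [mul_assoc (exp (-U)), h9.eq, ← mul_assoc (exp (-U)), exp_neg_mul, one_mul] at h11
    exact h11
  rw [h10] at h8
  exact hδS Y h6 h8

end Run7.h619.HG
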