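import Pool.Agent.Run7.h619.HG.Defs

/-!
# Criteria: reductive Lie algebras, arithmetic groups
-/

set_option autoImplicit false
set_option linter.unusedSectionVars false

open scoped Manifold ContDiff Topology
open Filter Set Metric NormedSpace

universe u

namespace Run7.h619.HG

open Pool.Agent.H718R2.G Pool.Agent.TH382.QC

attribute [local instance 100] LieRing.ofAssociativeRing

section lie

variable (K L M : Type*) [Field K] [CharZero K] [LieRing L] [LieAlgebra K L] [FiniteDimensional K L]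
  [AddCommGroup M] [Module K M] [LieRingModule L M] [LieModule K L M] [FiniteDimensional K M]

/-- A nondegenerate trace form remains nondegenerate on Cartan subalgebras, which are abelian. -/
theorem cartan_abelian (h : LinearMap.ker (LieModule.traceForm K L M) = ⊥) (H : LieSubalgebra K L)
    [H.IsCartanSubalgebra] : IsLieAbelian H := by
  have hr : LinearMap.ker ((LieModule.traceForm K L M).restrict H) = ⊥ := by
    have h1 : Codisjoint (LieAlgebra.rootSpace H 0) (LieModule.posFittingComp K H L) :=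
      (LieModule.isCompl_genWeightSpace_zero_posFittingComp K H L).codisjoint
    replace h1 : Codisjoint (H : Submodule K L) (LieModule.posFittingComp K H L : Submodule K L) := by
      rwa [codisjoint_iff, ← LieSubmodule.toSubmodule_inj, LieSubmodule.sup_toSubmodule,
        LieSubmodule.top_toSubmodule, LieAlgebra.rootSpace_zero_eq K L H,
        LieSubalgebra.coe_toLieSubmodule, ← codisjoint_iff] at h1
    suffices this : ∀ m₀ ∈ H, ∀ m₁ ∈ LieModule.posFittingComp K H L,
        LieModule.traceForm K L M m₀ m₁ = 0 by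
      simp [LinearMap.BilinForm.ker_restrict_eq_of_codisjoint h1 this, h]
    intro m₀ h₀ m₁ h₁
    refine LieModule.eq_zero_of_mem_genWeightSpace_mem_posFitting K H L
      (B := LieModule.traceForm K L M) (fun x m n => ?_) (LieAlgebra.le_zeroRootSubalgebra K L H h₀) h₁
    exact LieModule.traceForm_apply_lie_apply' K L M _ _ _
  exact LieModule.isLieAbelian_of_ker_traceForm_eq_bot K H M hr

end lie

section

variable {A : Type*} [NormedRing A] [NormedAlgebra ℝ A] [CompleteSpace A] [FiniteDimensional ℝ A]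
  {G : Subgroup Aˣ} {g : Submodule ℝ A}

/-- a criterion for abelian Cartan subalgebras -/
theorem hasCartan_of_trace (hG : IsLie G g) {M : Type*} [AddCommGroup M] [Module ℝ M]
    [FiniteDimensional ℝ M] (φ : A →ₐ[ℝ] Module.End ℝ M)
    (h : ∀ X ∈ g, (∀ Y ∈ g, LinearMap.trace ℝ M (φ X * φ Y) = 0) → X = 0) : HasCartan g := by
  let L : LieSubalgebra ℝ A :=
    { g with
      lie_mem' := by
        intro x y hx hy
        exact br_mem hG hx hy }
  let f : L →ₗ⁅ℝ⁆ Module.End ℝ M := (φ : A →ₗ⁅ℝ⁆ Module.End ℝ M).comp L.incl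
  let _ : LieRingModule L M := LieRingModule.compLieHom M f
  have _ : LieModule ℝ L M := LieModule.compLieHom M f
  have hf : ∀ (x : L) (m : M), ⁅x, m⁆ = φ (x : A) m := fun x m => rfl
  have hker : LinearMap.ker (LieModule.traceForm ℝ L M) = ⊥ := by
    rw [LinearMap.ker_eq_bot']
    intro x hx
    apply Subtype.ext
    refine h x x.2 fun Y hY => ?_
    have h1 := LinearMap.congr_fun hx (⟨Y, hY⟩ : L)
    rw [LieModule.traceForm_apply_apply] at h1
    exact h1
  obtain ⟨x, hx⟩ := LieAlgebra.exists_isCartanSubalgebra_engel ℝ L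
  have hab := cartan_abelian ℝ L M hker (LieSubalgebra.engel ℝ x)
  have hcomm : ∀ U V : L, U ∈ LieSubalgebra.engel ℝ x → V ∈ LieSubalgebra.engel ℝ x →
      Commute (U : A) (V : A) := by
    intro U V hU hV
    have h1 := hab.trivial (⟨U, hU⟩ : LieSubalgebra.engel ℝ x) (⟨V, hV⟩ : LieSubalgebra.engel ℝ x)
    have h2 := congrArg (fun z : LieSubalgebra.engel ℝ x => ((z : L) : A)) h1
    exact br_eq_zero.1 h2
  have had : ∀ U : L, (((LieAlgebra.ad ℝ L x) U : L) : A) = br (x : A) (U : A) := fun U => rfl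
  have hself := LieSubalgebra.self_mem_engel (R := ℝ) x
  have hcen : ∀ U ∈ cen g (x : A), ∃ hU : U ∈ g, (⟨U, hU⟩ : L) ∈ LieSubalgebra.engel ℝ x := by
    rintro U ⟨hU, hc⟩
    refine ⟨hU, ?_⟩
    rw [LieSubalgebra.mem_engel_iff]
    refine ⟨1, ?_⟩
    rw [pow_one]
    apply Subtype.ext
    rw [had]
    exact br_eq_zero.2 hc
  refine ⟨x, x.2, ?_, ?_⟩
  · intro U hU hc
    have hmem : (⟨U, hU⟩ : L) ∈ LieSubalgebra.engel ℝ x := by
      rw [LieSubalgebra.mem_engel_iff]
      refine ⟨2, ?_⟩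
      rw [pow_two]
      apply Subtype.ext
      show br (x : A) (br (x : A) U) = 0
      exact br_eq_zero.2 hc
    exact hcomm _ _ hself hmem
  · intro U hU V hV
    obtain ⟨hU', hU''⟩ := hcen U hU
    obtain ⟨hV', hV''⟩ := hcen V hV
    exact hcomm _ _ hU'' hV''

end

/-- Lie algebras of linear maps of `ℝᵈ` which are closed under taking adjoints (transposition). -/
theorem hasCartan_of_selfAdjoint {d : ℕ} {G : Subgroup (Md d)ˣ} {g : Submodule ℝ (Md d)}
    (hG : IsLie G g) (h : ∀ X ∈ g, ContinuousLinearMap.adjoint X ∈ g) : HasCartan g := by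
  let φ : Md d →ₐ[ℝ] Module.End ℝ (V d) :=
    { (ContinuousLinearMap.toLinearMapRingHom : Md d →+* Module.End ℝ (V d)) with
      commutes' := fun r => rfl }
  have hφ : ∀ (X : Md d) (v : V d), φ X v = X v := fun X v => rfl
  refine hasCartan_of_trace hG φ ?_
  intro X hX htr
  have h1 := htr _ (h X hX)
  rw [LinearMap.trace_eq_sum_inner _ (EuclideanSpace.basisFun (Fin d) ℝ)] at h1
  have h2 : ∀ i, inner ℝ (EuclideanSpace.basisFun (Fin d) ℝ i)
      ((φ X * φ (ContinuousLinearMap.adjoint X)) (EuclideanSpace.basisFun (Fin d) ℝ i)) =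
      ‖ContinuousLinearMap.adjoint X (EuclideanSpace.basisFun (Fin d) ℝ i)‖ ^ 2 := by
    intro i
    rw [Module.End.mul_apply, hφ, hφ, ← ContinuousLinearMap.adjoint_inner_left,
      real_inner_self_eq_norm_sq]
  rw [Finset.sum_congr rfl fun i _ => h2 i] at h1
  have h3 := (Finset.sum_eq_zero_iff_of_nonneg fun i _ => by positivity).1 h1
  have h4 : ContinuousLinearMap.adjoint X = 0 := by
    have h5 : (ContinuousLinearMap.adjoint X : Md d).toLinearMap = 0 := by
      apply (EuclideanSpace.basisFun (Fin d) ℝ).toBasis.ext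
      intro i
      rw [OrthonormalBasis.coe_toBasis]
      have h6 := h3 i (Finset.mem_univ i)
      have h7 : ‖ContinuousLinearMap.adjoint X (EuclideanSpace.basisFun (Fin d) ℝ i)‖ = 0 :=
        pow_eq_zero_iff (two_ne_zero) |>.1 h6
      exact norm_eq_zero.1 h7
    ext1 v
    exact LinearMap.congr_fun h5 v
  rw [← ContinuousLinearMap.adjoint_adjoint X, h4, map_zero]

section arith

variable {A : Type*} [NormedRing A] [NormedAlgebra ℝ A] [CompleteSpace A] [FiniteDimensional ℝ A]
  {G : Subgroup Aˣ} {g : Submodule ℝ A}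

/-- rational combinations are dense in the real span -/
theorem dense_rat (S : Set A) (Y : A) (hY : Y ∈ Submodule.span ℝ S) (P : A → Prop) (h0 : P 0)
    (hadd : ∀ x y, P x → P y → P (x + y)) (hq : ∀ x, P x → ∀ q : ℚ, P ((q : ℝ) • x))
    (hs : ∀ x ∈ S, P x) : ∀ ε : ℝ, 0 < ε → ∃ X, P X ∧ ‖X - Y‖ < ε := by
  induction hY using Submodule.span_induction with
  | zero => exact fun ε hε => ⟨0, h0, by simpa using hε⟩
  | mem x hx => exact fun ε hε => ⟨_, hs x hx, by simpa using hε⟩
  | add x y _ _ hx hy =>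
    intro ε hε
    obtain ⟨x', hx', hxn⟩ := hx (ε / 2) (by positivity)
    obtain ⟨y', hy', hyn⟩ := hy (ε / 2) (by positivity)
    refine ⟨x' + y', hadd _ _ hx' hy', ?_⟩
    have e : x' + y' - (x + y) = (x' - x) + (y' - y) := by abel
    rw [e]
    refine (norm_add_le _ _).trans_lt ?_
    linarith
  | smul a x _ hx =>
    intro ε hε
    obtain ⟨x', hx', hxn⟩ := hx (ε / (2 * (|a| + 1))) (by positivity)
    obtain ⟨q, hq1, hq2⟩ := exists_rat_btwn (show a < a + ε / (2 * (‖x'‖ + 1)) by
      have : 0 < ε / (2 * (‖x'‖ + 1)) := by positivity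
      linarith)
    refine ⟨(q : ℝ) • x', hq x' hx' q, ?_⟩
    have e : (q : ℝ) • x' - a • x = ((q : ℝ) - a) • x' + a • (x' - x) := by
      rw [sub_smul, smul_sub]
      abel
    rw [e]
    refine (norm_add_le _ _).trans_lt ?_
    rw [norm_smul, norm_smul, Real.norm_eq_abs, Real.norm_eq_abs]
    have h1 : |(q : ℝ) - a| * ‖x'‖ ≤ ε / (2 * (‖x'‖ + 1)) * ‖x'‖ := by
      apply mul_le_mul_of_nonneg_right _ (norm_nonneg _)
      rw [abs_of_nonneg (by linarith)]
      linarith
    have h2 : ε / (2 * (‖x'‖ + 1)) * ‖x'‖ < ε / 2 := by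
      rw [div_mul_eq_mul_div, div_lt_div_iff₀ (by positivity) (by norm_num)]
      nlinarith [norm_nonneg x']
    have h3 : |a| * ‖x' - x‖ ≤ |a| * (ε / (2 * (|a| + 1))) :=
      mul_le_mul_of_nonneg_left hxn.le (abs_nonneg _)
    have h4 : |a| * (ε / (2 * (|a| + 1))) ≤ ε / 2 := by
      rw [mul_div_assoc', div_le_div_iff₀ (by positivity) (by norm_num)]
      nlinarith [abs_nonneg a]
    linarith

theorem lattice_of_arith {N : Type u} {act : G → N → N} {y : N}
    (h : IsArithPt G g act y) (hinv : ∀ u : G, act u y = y → act u⁻¹ y = y) :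
    IsLatticePt G g act y := by
  obtain ⟨hc, R, hR, hspan, D, hD, hDR⟩ := h
  refine ⟨hc, fun Y hY ε hε => ?_⟩
  have hnat : ∀ (n : ℕ) (x : A), (n : A) * x = (n : ℝ) • x := by
    intro n x
    rw [← nsmul_eq_mul, Nat.cast_smul_eq_nsmul]
  have hYs := hY
  rw [hspan] at hYs
  obtain ⟨X, ⟨hXg, m, hm, hX⟩, hXY⟩ := dense_rat _ Y hYs (fun X => X ∈ g ∧ ∃ m : ℕ, 1 ≤ m ∧ (m : A) * X ∈ R)
    ⟨g.zero_mem, 1, le_rfl, by simp⟩ (by
      rintro x y ⟨hx, a, ha, hax⟩ ⟨hy, b, hb, hby⟩
      refine ⟨g.add_mem hx hy, a * b, Nat.mul_pos ha hb, ?_⟩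
      have e : ((a * b : ℕ) : A) * (x + y) = (b : A) * ((a : A) * x) + (a : A) * ((b : A) * y) := by
        rw [hnat, hnat, hnat, hnat, hnat, smul_smul, smul_smul, smul_add]
        push_cast
        rw [mul_comm (b : ℝ)]
      rw [e]
      exact R.add_mem (R.mul_mem (natCast_mem R b) hax) (R.mul_mem (natCast_mem R a) hby)) (by
      rintro x ⟨hx, a, ha, hax⟩ q
      refine ⟨g.smul_mem _ hx, q.den * a, Nat.mul_pos q.pos ha, ?_⟩
      have e : ((q.den * a : ℕ) : A) * ((q : ℝ) • x) = (q.num : A) * ((a : A) * x) := by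
        have h1 : (q.num : A) * ((a : A) * x) = (q.num : ℝ) • ((a : A) * x) := by
          rw [← zsmul_eq_mul, Int.cast_smul_eq_zsmul]
        rw [h1, hnat, hnat, smul_smul, smul_smul]
        congr 1
        push_cast
        have h2 : (q : ℝ) * (q.den : ℝ) = q.num := by exact_mod_cast Rat.mul_den_eq_num q
        linear_combination (a : ℝ) * h2
      rw [e]
      exact R.mul_mem (intCast_mem R _) hax) (by
      rintro x ⟨hx, hxR⟩
      exact ⟨hx, 1, le_rfl, by simpa using hxR⟩) ε hε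
  refine ⟨X, hXg, hXY, fun C => ?_⟩
  obtain ⟨M, hMdef⟩ : ∃ M : ℕ, M = D * m * D := ⟨_, rfl⟩
  have hM : 1 ≤ M := by
    rw [hMdef]
    exact Nat.mul_pos (Nat.mul_pos hD hm) hD
  have hM0 : (0 : ℝ) < M := by exact_mod_cast hM
  have hinj : Function.Injective fun Z : A => (M : ℝ) • Z := smul_right_injective A hM0.ne'
  refine Set.Finite.of_finite_image ((hR (M * C)).subset ?_) hinj.injOn
  rintro _ ⟨Z, ⟨hZ, γ, hγ, hZe⟩, rfl⟩
  refine ⟨?_, ?_⟩
  · have h1 := hDR γ hγ
    have h2 := hDR γ⁻¹ (hinv γ hγ)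
    have e : (M : ℝ) • Z = ((D : A) * (((γ : Aˣ)⁻¹ : Aˣ) : A)) * ((m : A) * X) * ((D : A) * ((γ : Aˣ) : A)) := by
      rw [hnat, hnat, hnat, hZe, hMdef]
      simp only [smul_mul_assoc, mul_smul_comm, smul_smul]
      congr 1
      push_cast
      ring
    show (M : ℝ) • Z ∈ R
    rw [e]
    exact R.mul_mem (R.mul_mem h2 hX) h1
  · show ‖(M : ℝ) • Z‖ ≤ M * C
    rw [norm_smul, Real.norm_of_nonneg hM0.le]
    exact mul_le_mul_of_nonneg_left hZ hM0.le

end arith

end Run7.h619.HG
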