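import Pool.Agent.Run7.h619.HG.Step

/-!
# The closing lemma for periodic homogeneous submanifolds
-/

set_option autoImplicit false
set_option linter.unusedSectionVars false

open scoped Manifold ContDiff Topology NNReal
open Filter Set Metric NormedSpace

universe u

namespace Run7.h619.HG

open Pool.Agent.H718R2.G Pool.Agent.W564.SC Pool.Agent.TH382.QC Pool.Agent.TH80.CLX
  Pool.Agent.TH382.HS

variable {A : Type*} [NormedRing A] [NormedAlgebra ℝ A] [CompleteSpace A]
  {G : Subgroup Aˣ} {g : Submodule ℝ A}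

/-- the stabiliser as a group of units of `A` -/
def stab {N : Type u} (O : Set N) (act : G → N → N) (y : N) (n : ℕ) [TopologicalSpace N]
    [ChartedSpace (V n) N] (hact : IsGAction G n N O act) (hy : y ∈ O) : Subgroup Aˣ where
  carrier := {γ | ∃ h : γ ∈ G, act ⟨γ, h⟩ y = y}
  mul_mem' := by
    rintro a b ⟨ha, ha'⟩ ⟨hb, hb'⟩
    refine ⟨G.mul_mem ha hb, ?_⟩
    have h1 := hact.mul ⟨a, ha⟩ ⟨b, hb⟩ y hy
    rw [hb', ha'] at h1
    exact h1
  one_mem' := ⟨G.one_mem, hact.one y hy⟩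
  inv_mem' := by
    rintro a ⟨ha, ha'⟩
    refine ⟨G.inv_mem ha, ?_⟩
    have h1 := hact.mul ⟨a, ha⟩⁻¹ ⟨a, ha⟩ y hy
    rw [inv_mul_cancel, hact.one y hy, ha'] at h1
    exact h1.symm

section

variable {n : ℕ} {N : Type u} [TopologicalSpace N] [ChartedSpace (V n) N]

theorem coc_of {O : Set N} {act : G → N → N} (hact : IsGAction G n N O act) {y : N} (hy : y ∈ O)
    (hc : CompactOrbit act y) : ∃ K : Set Aˣ, Coc G (stab O act y n hact hy) K := by
  obtain ⟨K, hK, hKy⟩ := hc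
  refine ⟨(fun u : G => (u : Aˣ)) '' K, ?_, hK.image continuous_subtype_val, ?_⟩
  · rintro γ ⟨h, -⟩
    exact h
  · intro u hu
    obtain ⟨k, hk, hky⟩ := hKy ⟨u, hu⟩
    refine ⟨u⁻¹ * (k : Aˣ), ⟨G.mul_mem (G.inv_mem hu) k.2, ?_⟩, k, hk, ?_⟩
    · have h1 := hact.mul ⟨u, hu⟩⁻¹ k y hy
      rw [← hky, ← hact.mul _ _ y hy, inv_mul_cancel, hact.one y hy] at h1
      exact h1
    · simp

theorem dense_of {O : Set N} {act : G → N → N} (hact : IsGAction G n N O act) {y : N} (hy : y ∈ O)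
    (hc : IsLatticePt G g act y) : DenseLF g (stab O act y n hact hy) := by
  intro Y hY ε hε
  obtain ⟨X, hX, hXY, hfin⟩ := hc.dense Y hY ε hε
  refine ⟨X, hX, hXY, fun R => (hfin R).subset ?_⟩
  rintro Z ⟨hZ, γ, ⟨hγ, hγy⟩, hZe⟩
  exact ⟨hZ, ⟨γ, hγ⟩, hγy, hZe⟩

end

/-- homomorphisms defined by abelian subalgebras -/
theorem hom_fam [FiniteDimensional ℝ A] (hG : IsLie G g) (c : Submodule ℝ A) (hc : c ≤ g)
    (hab : ∀ U ∈ c, ∀ W ∈ c, Commute U W) :
    ∃ (j : ℕ) (e : V j ≃L[ℝ] c) (f : V j → G), IsHomFam f ∧ ∀ s, (f s : Aˣ) = eu (e s : A) := by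
  obtain ⟨e⟩ : Nonempty (V (Module.finrank ℝ c) ≃L[ℝ] c) :=
    FiniteDimensional.nonempty_continuousLinearEquiv_of_finrank_eq (by simp)
  refine ⟨_, e, fun s => ⟨eu (e s : A), hG.exp_mem _ (hc (e s).2)⟩, ⟨?_, ?_⟩, fun s => rfl⟩
  · show ContDiff ℝ ∞ fun s => exp (e s : A)
    have h1 : ContDiff ℝ ∞ (exp : A → A) :=
      (contDiff_iff_contDiffAt.2 fun x => ((exp_analytic x).contDiffAt))
    have h2 : ContDiff ℝ ∞ fun s => (e s : A) := c.subtypeL.contDiff.comp e.contDiff
    exact h1.comp h2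
  · intro s t
    apply Subtype.ext
    show eu (e (s + t) : A) = eu (e s : A) * eu (e t : A)
    rw [map_add, Submodule.coe_add, eu_add (hab _ (e s).2 _ (e t).2)]

section

variable [FiniteDimensional ℝ A] {n : ℕ} {N : Type u} [TopologicalSpace N] [T2Space N]
  [CompactSpace N] [ChartedSpace (V n) N] [IsManifold (𝓡 n) ∞ N] {r : ℕ∞}

theorem close_of_reg (hG : IsLie G g) {O : Set N} {act : G → N → N} (hact : IsGAction G n N O act)
    {y : N} (hy : y ∈ O) (hlat : IsLatticePt G g act y) (h : G) (hreg : Reg g (h : Aˣ)) :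
    GroupClose act y h := by
  obtain ⟨Z, hZ, hss, hab, hc⟩ := hreg
  obtain ⟨K, hK⟩ := coc_of hact hy hlat.compact
  have hd := dense_of hact hy hlat
  obtain ⟨j, e, f, hf, hfe⟩ := hom_fam hG (cen g Z) (fun U hU => hU.1) hab
  choose s hs hsn U hU hUn q hq hγ using fun m : ℕ =>
    close_group hG hK hd hZ hss hab h.2 hc (1 / ((m : ℝ) + 1)) (by positivity)
  have hlim : Tendsto (fun m : ℕ => 1 / ((m : ℝ) + 1)) atTop (𝓝 0) :=
    tendsto_one_div_add_atTop_nhds_zero_nat
  have hs0 : Tendsto s atTop (𝓝 0) := squeeze_zero_norm (fun m => (hsn m).le) hlim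
  have hU0 : Tendsto U atTop (𝓝 0) := squeeze_zero_norm (fun m => (hUn m).le) hlim
  refine ⟨j, f, hf, fun m => e.symm ⟨s m, hs m⟩, fun m => ⟨eu (-(U m)), hG.exp_mem _ (g.neg_mem (hU m))⟩,
    q, ?_, ?_, Eventually.of_forall fun m => ⟨hq m, ?_⟩⟩
  · have h1 : Tendsto (fun m => (⟨s m, hs m⟩ : cen g Z)) atTop (𝓝 0) := by
      rw [tendsto_subtype_rng]
      exact hs0
    have h2 := (e.symm.continuous.tendsto 0).comp h1
    rw [map_zero] at h2
    exact h2
  · rw [tendsto_subtype_rng]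
    have h1 : Tendsto (fun m => -(U m)) atTop (𝓝 0) := by
      have := hU0.neg
      rwa [neg_zero] at this
    have h2 := ((eu_cont (A := A)).tendsto 0).comp h1
    rw [eu_zero] at h2
    exact h2
  · obtain ⟨hmem, hγy⟩ := hγ m
    have e1 : (f (e.symm ⟨s m, hs m⟩) : Aˣ) = eu (s m) := by
      rw [hfe, ContinuousLinearEquiv.apply_symm_apply]
    obtain ⟨k, hk⟩ : ∃ k : G, k = ⟨eu (-(U m)), hG.exp_mem _ (g.neg_mem (hU m))⟩ := ⟨_, rfl⟩
    show act ((h * f (e.symm ⟨s m, hs m⟩)) ^ q m * ⟨eu (-(U m)), hG.exp_mem _ (g.neg_mem (hU m))⟩) y =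
      act ⟨eu (-(U m)), hG.exp_mem _ (g.neg_mem (hU m))⟩ y
    rw [← hk]
    have e2 : (⟨_, hmem⟩ : G) = k⁻¹ * (h * f (e.symm ⟨s m, hs m⟩)) ^ q m * k := by
      apply Subtype.ext
      rw [hk]
      push_cast
      rw [e1, eu_neg, inv_inv]
    rw [e2, mul_assoc, hact.mul _ _ y hy] at hγy
    have h3 := congrArg (act k) hγy
    rw [← hact.mul _ _ _ (hact.maps _ _ hy), mul_inv_cancel, hact.one _ (hact.maps _ _ hy)] at h3
    exact h3

theorem cc_all (hG : IsLie G g) (hC : HasCartan g) {O : Set N} {act : G → N → N}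
    (hact : IsGAction G n N O act) {y : N} (hy : y ∈ O) (hlat : IsLatticePt G g act y) {m : ℕ}
    (hm : 1 ≤ m) {k : G} {l : ℕ} (hl : 1 ≤ l) (hk : act (k ^ l) y = y) (h : G) :
    CC n r act y m k h := by
  have key : ∀ u ∈ G, ∀ hu : u ∈ G, CC n r act y m k ⟨u, hu⟩ := by
    refine induct hG hC (fun u => ∀ hu : u ∈ G, CC n r act y m k ⟨u, hu⟩) ?_ ?_
    · intro u hu hreg _ F hF hdis
      exact step hact hy hlat.compact F hm hl hk hF hdis (close_of_reg hG hact hy hlat ⟨u, hu⟩ hreg)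
    · intro u hu W hW hfr _
      -- the one-parameter family
      let c : V 1 → G := fun t => ⟨eu ((t 0) • W), hG.exp_mem _ (g.smul_mem _ hW)⟩
      have hc : IsHomFam c := by
        constructor
        · show ContDiff ℝ ∞ fun s : V 1 => exp ((s 0) • W)
          have h1 : ContDiff ℝ ∞ (exp : A → A) :=
            (contDiff_iff_contDiffAt.2 fun x => ((exp_analytic x).contDiffAt))
          have h2 : ContDiff ℝ ∞ fun s : V 1 => (s 0) • W := by
            have h3 : ContDiff ℝ ∞ fun s : V 1 => s 0 := by fun_prop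
            exact h3.smul contDiff_const
          exact h1.comp h2
        · intro s t
          apply Subtype.ext
          show eu ((s + t) 0 • W) = eu (s 0 • W) * eu (t 0 • W)
          rw [PiLp.add_apply, add_smul, eu_add (((Commute.refl W).smul_left _).smul_right _)]
      refine pp_limit hact hy hlat.compact hm hc ?_
      have h1 : Tendsto (fun t : ℝ => (t • EuclideanSpace.single (0 : Fin 1) (1 : ℝ) : V 1)) (𝓝 0)
          (𝓝 0) := by
        have h2 : Continuous fun t : ℝ => (t • EuclideanSpace.single (0 : Fin 1) (1 : ℝ) : V 1) :=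
          continuous_id.smul continuous_const
        have h3 := h2.tendsto 0
        rwa [zero_smul] at h3
      refine h1.frequently (hfr.mono fun t ht => ?_)
      have ht0 : (t • EuclideanSpace.single (0 : Fin 1) (1 : ℝ) : V 1) 0 = t := by simp
      have e1 : (⟨u, hu⟩ : G) * c (t • EuclideanSpace.single (0 : Fin 1) (1 : ℝ)) =
          ⟨u * eu (t • W), G.mul_mem hu (hG.exp_mem _ (g.smul_mem t hW))⟩ := by
        apply Subtype.ext
        show u * eu ((t • EuclideanSpace.single (0 : Fin 1) (1 : ℝ) : V 1) 0 • W) = u * eu (t • W)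
        rw [ht0]
      rw [e1]
      exact ht _
  exact key h h.2 h.2

theorem closable_of_per (hG : IsLie G g) (hC : HasCartan g) (F : DiffM n N r) (y : N)
    (hF : IsPerOrbit G n N (IsLatticePt G g) F y) : ClosableAt n N r F y := by
  obtain ⟨O, act, hact, hy, hlat, m, hm, ⟨h, k, l, hl, hk, hFm⟩, hdis⟩ := hF
  exact cc_all hG hC hact hy hlat hm hl hk h F hFm hdis

end

end Run7.h619.HG
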