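import Pool.Agent.Run7.h619.HG.Reg

/-!
# Closing in the group for regular elements
-/

set_option autoImplicit false
set_option linter.unusedSectionVars false

open scoped Topology
open Filter Set Metric NormedSpace

namespace Run7.h619.HG

variable {A : Type*} [NormedRing A] [NormedAlgebra ℝ A] [CompleteSpace A] [FiniteDimensional ℝ A]
  {G : Subgroup Aˣ} {g : Submodule ℝ A} {Γ : Subgroup Aˣ} {K : Set Aˣ}

/-- The elements of `g` with locally finite orbits under conjugation by `Γ` are dense. -/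
def DenseLF (g : Submodule ℝ A) (Γ : Subgroup Aˣ) : Prop :=
  ∀ Y ∈ g, ∀ ε : ℝ, 0 < ε → ∃ X ∈ g, ‖X - Y‖ < ε ∧ LocFin Γ X

/-- Centralisers of elements with locally finite orbits, conjugate to a given one by small elements. -/
theorem good_conj (hG : IsLie G g) (hd : DenseLF g Γ) {Y : A} (hY : Y ∈ g) (hss : SS g Y)
    (hab : Abel g Y) (η : ℝ) (hη : 0 < η) :
    ∃ X ∈ g, LocFin Γ X ∧ Abel g X ∧ ∃ U ∈ g, ‖U‖ < η ∧
      ∀ C : A, C ∈ cen g X ↔ exp (-U) * C * exp U ∈ cen g Y := by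
  obtain ⟨ε, hε, hcen⟩ := cen_eq hG hY hss hab
  obtain ⟨δ, hδ, honto⟩ := conj_onto hG hY hss (min ε η) (lt_min hε hη)
  obtain ⟨X, hX, hXY, hloc⟩ := hd Y hY δ hδ
  obtain ⟨U, hU, C₀, hC₀, hUn, hCn, hXe⟩ := honto X hX hXY
  have hc := hcen C₀ hC₀ (lt_of_lt_of_le hCn (min_le_left _ _))
  have hiff : ∀ C : A, C ∈ cen g X ↔ exp (-U) * C * exp U ∈ cen g Y := by
    intro C
    rw [← hc]
    constructor
    · rintro ⟨h1, h2⟩
      refine ⟨ad_mem' hG (hG.exp_mem U hU) h1, ?_⟩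
      have h3 := unit_conj_comm (k := (eu U)⁻¹) h2
      rw [inv_inv, hXe] at h3
      have h4 : (((eu U)⁻¹ : Aˣ) : A) * (exp U * C₀ * exp (-U)) * ((eu U : Aˣ) : A) = C₀ := by
        show exp (-U) * (exp U * C₀ * exp (-U)) * exp U = C₀
        calc exp (-U) * (exp U * C₀ * exp (-U)) * exp U =
              (exp (-U) * exp U) * C₀ * (exp (-U) * exp U) := by simp only [mul_assoc]
          _ = C₀ := by rw [exp_neg_mul, one_mul, mul_one]
      rw [h4] at h3
      exact h3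
    · rintro ⟨h1, h2⟩
      have e1 : exp U * (exp (-U) * C * exp U) * exp (-U) = C := by
        calc exp U * (exp (-U) * C * exp U) * exp (-U) =
              (exp U * exp (-U)) * C * (exp U * exp (-U)) := by simp only [mul_assoc]
          _ = C := by rw [exp_mul_neg, one_mul, mul_one]
      constructor
      · have h3 := ad_mem hG (hG.exp_mem U hU) h1
        have h4 : ((eu U : Aˣ) : A) * (exp (-U) * C * exp U) * (((eu U)⁻¹ : Aˣ) : A) = C := e1
        rwa [h4] at h3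
      · have h3 := unit_conj_comm (k := eu U) h2
        have h4 : ((eu U : Aˣ) : A) * (exp (-U) * C * exp U) * (((eu U)⁻¹ : Aˣ) : A) = C := e1
        rw [h4] at h3
        rw [hXe]
        exact h3
  refine ⟨X, hX, hloc, ?_, U, hU, lt_of_lt_of_le hUn (min_le_right _ _), hiff⟩
  intro P hP Q hQ
  have h1 := hab _ ((hiff P).1 hP) _ ((hiff Q).1 hQ)
  have h2 := unit_conj_comm (k := eu U) h1
  have e1 : ∀ C : A, ((eu U : Aˣ) : A) * (exp (-U) * C * exp U) * (((eu U)⁻¹ : Aˣ) : A) = C := by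
    intro C
    show exp U * (exp (-U) * C * exp U) * exp (-U) = C
    calc exp U * (exp (-U) * C * exp U) * exp (-U) =
          (exp U * exp (-U)) * C * (exp U * exp (-U)) := by simp only [mul_assoc]
      _ = C := by rw [exp_mul_neg, one_mul, mul_one]
  rwa [e1, e1] at h2

/-- **Closing in the group for regular elements**: `Y` is an element of `g` with abelian centraliser
commuting with `h`. -/
theorem close_group (hG : IsLie G g) (hK : Coc G Γ K) (hd : DenseLF g Γ) {Y : A} (hY : Y ∈ g)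
    (hss : SS g Y) (hab : Abel g Y) {h : Aˣ} (hh : h ∈ G)
    (hc : ∀ C ∈ cen g Y, Commute (h : A) C) (η : ℝ) (hη : 0 < η) :
    ∃ s ∈ cen g Y, ‖s‖ < η ∧ ∃ U ∈ g, ‖U‖ < η ∧ ∃ q : ℕ, 1 ≤ q ∧
      eu U * (h * eu s) ^ q * (eu U)⁻¹ ∈ Γ := by
  obtain ⟨X, hX, hloc, habX, U, hU, hUη, hiff⟩ := good_conj hG hd hY hss hab η hη
  obtain ⟨k, hk⟩ : ∃ k : Aˣ, k = eu U := ⟨_, rfl⟩
  have hkG : k ∈ G := by rw [hk]; exact hG.exp_mem U hU
  obtain ⟨h₂, hh₂⟩ : ∃ h₂ : Aˣ, h₂ = k * h * k⁻¹ := ⟨_, rfl⟩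
  have hh₂G : h₂ ∈ G := by
    rw [hh₂]
    exact G.mul_mem (G.mul_mem hkG hh) (G.inv_mem hkG)
  have e1 : ∀ C : A, (k : A) * (exp (-U) * C * exp U) * ((k⁻¹ : Aˣ) : A) = C := by
    intro C
    rw [hk]
    show exp U * (exp (-U) * C * exp U) * exp (-U) = C
    calc exp U * (exp (-U) * C * exp U) * exp (-U) =
          (exp U * exp (-U)) * C * (exp U * exp (-U)) := by simp only [mul_assoc]
      _ = C := by rw [exp_mul_neg, one_mul, mul_one]
  have hc₂ : ∀ C ∈ cen g X, Commute (h₂ : A) C := by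
    intro C hC
    have h1 := unit_conj_comm (k := k) (hc _ ((hiff C).1 hC))
    rw [e1] at h1
    rw [hh₂, Units.val_mul, Units.val_mul]
    exact h1
  obtain ⟨M, hM⟩ : ∃ M : ℝ, M = ‖exp (-U)‖ * ‖exp U‖ + 1 := ⟨_, rfl⟩
  have hM0 : 0 < M := by rw [hM]; positivity
  obtain ⟨s', hs', hsn, q, hq, hγ⟩ := close_reg hG hK hloc habX hh₂G hX hc₂ (η / M) (by positivity)
  refine ⟨exp (-U) * s' * exp U, (hiff s').1 hs', ?_, U, hU, hUη, q, hq, ?_⟩
  · have h1 : ‖exp (-U) * s' * exp U‖ ≤ ‖exp (-U)‖ * ‖s'‖ * ‖exp U‖ :=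
      (norm_mul_le _ _).trans (mul_le_mul_of_nonneg_right (norm_mul_le _ _) (norm_nonneg _))
    have h2 : ‖s'‖ * M < η := by rwa [lt_div_iff₀ hM0] at hsn
    have h3 : ‖exp (-U)‖ * ‖s'‖ * ‖exp U‖ ≤ ‖s'‖ * M := by
      rw [hM]
      nlinarith [norm_nonneg s', norm_nonneg (exp U), norm_nonneg (exp (-U))]
    linarith
  · have h1 : eu (exp (-U) * s' * exp U) = k⁻¹ * eu s' * k := by
      have h2 := eu_conj k⁻¹ s'
      rw [inv_inv] at h2
      rw [← h2, hk]
      rfl
    rw [h1, ← hk]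
    have h2 : k * (h * (k⁻¹ * eu s' * k)) ^ q * k⁻¹ = (h₂ * eu s') ^ q := by
      have h3 : h * (k⁻¹ * eu s' * k) = k⁻¹ * (h₂ * eu s') * k := by
        rw [hh₂]
        group
      have h4 : ∀ m : ℕ, (k⁻¹ * (h₂ * eu s') * k) ^ m = k⁻¹ * (h₂ * eu s') ^ m * k := by
        intro m
        induction m with
        | zero => simp
        | succ m ih => rw [pow_succ, ih, pow_succ]; group
      rw [h3, h4]
      group
    rw [h2]
    exact hγ

/-- `g` contains an element whose centraliser is abelian and equal to its generalised centraliser (an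
abelian Cartan subalgebra). -/
def HasCartan (g : Submodule ℝ A) : Prop := ∃ Y ∈ g, SS g Y ∧ Abel g Y

theorem cen_smul {Y : A} {t : ℝ} (ht : t ≠ 0) : cen g (t • Y) = cen g Y := by
  ext C
  constructor
  · rintro ⟨h1, h2⟩
    refine ⟨h1, ?_⟩
    have := h2.smul_left t⁻¹
    rwa [smul_smul, inv_mul_cancel₀ ht, one_smul] at this
  · rintro ⟨h1, h2⟩
    exact ⟨h1, h2.smul_left t⟩

/-- a small such element -/
theorem small_cartan (h : HasCartan g) (ρ : ℝ) (hρ : 0 < ρ) :
    ∃ Y ∈ g, SS g Y ∧ Abel g Y ∧ ‖Y‖ < ρ := by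
  obtain ⟨Y, hY, hss, hab⟩ := h
  obtain ⟨t, ht⟩ : ∃ t : ℝ, t = ρ / (2 * (‖Y‖ + 1)) := ⟨_, rfl⟩
  have h1 : 0 < ‖Y‖ + 1 := by positivity
  have ht0 : 0 < t := by rw [ht]; positivity
  have hcomm : ∀ U : A, Commute (t • Y) U → Commute Y U := by
    intro U hU
    have := hU.smul_left t⁻¹
    rwa [smul_smul, inv_mul_cancel₀ ht0.ne', one_smul] at this
  refine ⟨t • Y, g.smul_mem t hY, ?_, ?_, ?_⟩
  · intro U hU h2
    have e : br (t • Y) U = t • br Y U := by
      unfold br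
      rw [smul_mul_assoc, mul_smul_comm, smul_sub]
    rw [e] at h2
    have h3 := (hcomm _ h2).smul_right t⁻¹
    rw [smul_smul, inv_mul_cancel₀ ht0.ne', one_smul] at h3
    exact (hss U hU h3).smul_left t
  · intro U hU V hV
    rw [cen_smul ht0.ne'] at hU hV
    exact hab U hU V hV
  · rw [norm_smul, Real.norm_of_nonneg ht0.le, ht, div_mul_eq_mul_div, div_lt_iff₀ (by positivity)]
    nlinarith [norm_nonneg Y]

/-- **Regular elements are reached by exponentials**: an induction principle. Let `P` be a property of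
elements of `G` which holds for regular elements, and for `h` if it holds for `h exp (t W)` for
arbitrarily small `t`. Then it holds for all elements of `G`. -/
theorem induct (hG : IsLie G g) (hC : HasCartan g) (P : Aˣ → Prop)
    (hreg : ∀ h ∈ G, Reg g h → P h)
    (hlim : ∀ h ∈ G, ∀ W ∈ g, (∃ᶠ t in 𝓝 (0 : ℝ), P (h * eu (t • W))) → P h) :
    ∀ h ∈ G, P h := by
  obtain ⟨ρ, hρ, hcomm⟩ := comm_of_exp A
  obtain ⟨Y, hY, hss, hab, hYρ⟩ := small_cartan hC ρ hρ
  obtain ⟨π, hπ⟩ := exists_proj hss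
  have hPP := PP_exp hG hY hss hπ hcomm hYρ
  have key : ∀ L : List A, (∀ W ∈ L, W ∈ g) → ∀ h ∈ G, PP Y π (h * (L.map eu).prod) ≠ 0 → P h := by
    intro L
    induction L with
    | nil =>
      intro _ h hh hne
      rw [List.map_nil, List.prod_nil, mul_one] at hne
      exact hreg h hh (reg_of_PP hG hY hss hπ (ident_all hG hY hss hab hπ hcomm hYρ hh) hne)
    | cons W L ih =>
      intro hL h hh hne
      have hW : W ∈ g := hL W List.mem_cons_self
      have hL' : ∀ V ∈ L, V ∈ g := fun V hV => hL V (List.mem_cons_of_mem _ hV)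
      apply hlim h hh W hW
      have hAC : AC fun t : ℝ => h * eu (t • W) * (L.map eu).prod :=
        ((AC.const h).mul (ac_eu (an_smul W))).mul (AC.const _)
      have h1 : ∃ᶠ s in 𝓝 (0 : ℝ), PP Y π (h * eu (s • W) * (L.map eu).prod) ≠ 0 := by
        refine (an_PP Y π hAC).frequently_ne (t := 1) ?_
        rw [List.map_cons, List.prod_cons, ← mul_assoc] at hne
        rwa [one_smul]
      exact h1.mono fun t ht => ih hL' _ (G.mul_mem hh (hG.exp_mem _ (g.smul_mem t hW))) ht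
  intro h hh
  obtain ⟨L, hL, hLe⟩ := hG.conn (h⁻¹ * eu Y) (G.mul_mem (G.inv_mem hh) (hG.exp_mem Y hY))
  apply key L hL h hh
  rw [← hLe, mul_inv_cancel_left]
  exact hPP

end Run7.h619.HG
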