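import Pool.Agent.Run7.h619.HG.Main
import Pool.Agent.Run7.h619.HG.Crit
import Pool.Agent.TH382.QC.Torus

/-!
# Limits of periodic homogeneous submanifolds; cocycle extensions with values in linear Lie groups
-/

set_option autoImplicit false
set_option linter.unusedSectionVars false

open scoped Manifold ContDiff Topology
open Filter Set Metric

universe u

namespace Run7.h619.HG

open Pool.Agent.H718R2.G Pool.Agent.W564.SC Pool.Agent.TH382.QC Pool.Agent.TH382.HS

section defs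

variable {A : Type*} [NormedRing A] [NormedAlgebra ℝ A] [CompleteSpace A] {G : Subgroup Aˣ}

/-- `f` commutes with the action `ρ`. -/
def Comm {N : Type u} (ρ : G → N → N) (f : N → N) : Prop :=
  ∀ (u : G) (y : N), f (ρ u y) = ρ u (f y)

/-- `F y = a(y) · F₀(y)`, where `a` is invariant under the action `ρ` and `F₀` commutes with it. -/
structure IsSkew {N : Type u} (ρ : G → N → N) (a : N → G) (F₀ F : N → N) : Prop where
  inv : ∀ u y, a (ρ u y) = a y
  comm : Comm ρ F₀
  eq : ∀ y, F y = ρ (a y) (F₀ y)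

/-- Every neighbourhood of `F₀` in `Diff^r(N)` contains a diffeomorphism which commutes with the action
and for which `z` is periodic. -/
def EqClosable (n : ℕ) (N : Type u) [TopologicalSpace N] [ChartedSpace (V n) N] (r : ℕ∞)
    (ρ : G → N → N) (F₀ : DiffM n N r) (z : N) : Prop :=
  ∀ U : Set (DiffM n N r), IsOpen[strongTop n N r] U → F₀ ∈ U → ∃ f ∈ U, Comm ρ f ∧ IsPer f z

/-- `y` lies on a periodic homogeneous submanifold `G / Γ` of `F`, where `G` is a connected linear Lie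
group whose Lie algebra has an abelian Cartan subalgebra, and `Γ` satisfies the condition of
`IsLatticePt`. -/
def IsHomPer (n : ℕ) (N : Type u) [TopologicalSpace N] [ChartedSpace (V n) N] (F : N → N)
    (y : N) : Prop :=
  ∃ (d : ℕ) (G : Subgroup (Md d)ˣ) (g : Submodule ℝ (Md d)), IsLie G g ∧ HasCartan g ∧
    IsPerOrbit G n N (IsLatticePt G g) F y

end defs

section alg

variable {A : Type*} [NormedRing A] [NormedAlgebra ℝ A] [CompleteSpace A] {G : Subgroup Aˣ}
  {N : Type u} {ρ : G → N → N} (h1 : ∀ y, ρ 1 y = y)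
  (hm : ∀ u v y, ρ (u * v) y = ρ u (ρ v y))

include hm in
theorem comm_iter {f : N → N} (hf : Comm ρ f) (i : ℕ) (u : G) (y : N) :
    f^[i] (ρ u y) = ρ u (f^[i] y) := by
  induction i with
  | zero => rfl
  | succ i ih => rw [Function.iterate_succ_apply', ih, hf, Function.iterate_succ_apply']

include h1 hm in
theorem skew_iter {a : N → G} {F₀ F : N → N} (h : IsSkew ρ a F₀ F) (z : N) (i : ℕ) :
    ∃ p : G, ∀ u, F^[i] (ρ u z) = ρ (p * u) (F₀^[i] z) := by
  induction i with
  | zero => exact ⟨1, fun u => by rw [one_mul]; rfl⟩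
  | succ i ih =>
    obtain ⟨p, hp⟩ := ih
    refine ⟨a (F₀^[i] z) * p, fun u => ?_⟩
    rw [Function.iterate_succ_apply', hp, h.eq, h.inv, h.comm, ← hm, Function.iterate_succ_apply',
      mul_assoc]

include h1 hm in
/-- a skew product over a map for which `z` is periodic -/
theorem skew_per {n : ℕ} [TopologicalSpace N] [ChartedSpace (V n) N]
    (hρ : IsGAction G n N univ ρ) {a : N → G} {F₀ F : N → N} (h : IsSkew ρ a F₀ F) {z : N}
    {P : (G → N → N) → N → Prop} (hz : P ρ z) (hper : IsPer F₀ z) : IsPerOrbit G n N P F z := by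
  classical
  obtain ⟨q, hq, hqz⟩ := hper
  have hex : ∃ m : ℕ, 1 ≤ m ∧ ∃ k, F₀^[m] z = ρ k z := ⟨q, hq, 1, by rw [hqz, h1]⟩
  obtain ⟨m, hmdef⟩ : ∃ m, m = Nat.find hex := ⟨_, rfl⟩
  obtain ⟨hm1, k, hk⟩ : 1 ≤ m ∧ ∃ k, F₀^[m] z = ρ k z := by
    rw [hmdef]
    exact Nat.find_spec hex
  have hmin : ∀ i, 1 ≤ i → i < m → ∀ k, F₀^[i] z ≠ ρ k z := by
    intro i hi him k hik
    rw [hmdef] at him
    exact Nat.find_min hex him ⟨hi, k, hik⟩
  have hpow : ∀ l : ℕ, F₀^[m * l] z = ρ (k ^ l) z := by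
    intro l
    induction l with
    | zero => rw [pow_zero, h1]; rfl
    | succ l ih =>
      rw [Nat.mul_succ, Function.iterate_add_apply, hk, comm_iter hm h.comm, ih, ← hm, pow_succ']
  -- the period is a multiple of `m`
  obtain ⟨l, hl⟩ : ∃ l, q = m * l := by
    have h2 : q % m = 0 := by
      by_contra hne
      have h3 : q % m < m := Nat.mod_lt _ hm1
      refine hmin (q % m) (Nat.one_le_iff_ne_zero.2 hne) h3 (k ^ (q / m))⁻¹ ?_
      have h4 : F₀^[q % m + m * (q / m)] z = z := by rw [Nat.mod_add_div, hqz]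
      rw [Function.iterate_add_apply, hpow, comm_iter hm h.comm] at h4
      have h5 := congrArg (ρ (k ^ (q / m))⁻¹) h4
      rwa [← hm, inv_mul_cancel, h1] at h5
    exact ⟨q / m, by have := Nat.mod_add_div q m; rw [h2, zero_add] at this; exact this.symm⟩
  have hl1 : 1 ≤ l := by
    rcases Nat.eq_zero_or_pos l with h0 | h0
    · rw [h0, mul_zero] at hl
      omega
    · exact h0
  obtain ⟨p, hp⟩ := skew_iter h1 hm h z m
  refine ⟨univ, ρ, hρ, mem_univ _, hz, m, hm1, ⟨p, k, l, hl1, ?_, fun u => ?_⟩,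
    fun i hi him u v hc => ?_⟩
  · rw [← hpow, ← hl, hqz]
  · rw [hp, hk, ← hm]
  · obtain ⟨p', hp'⟩ := skew_iter h1 hm h z i
    rw [hp'] at hc
    refine hmin i hi him ((p' * u)⁻¹ * v) ?_
    rw [hm, ← hc, ← hm, inv_mul_cancel, h1]

end alg

variable {n : ℕ} {N : Type u} [TopologicalSpace N] [T2Space N] [CompactSpace N]
  [ChartedSpace (V n) N] [IsManifold (𝓡 n) ∞ N] {r : ℕ∞}

theorem main (F : DiffM n N r) (z : N)
    (h : ∀ U : Set (DiffM n N r), IsOpen[strongTop n N r] U → F ∈ U →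
      ∃ F' ∈ U, z ∈ closure {y | IsHomPer n N F' y}) : ClosableAt n N r F z := by
  apply closable_of_limit
  intro U hU hFU
  obtain ⟨F', hF', hz⟩ := h U hU hFU
  refine ⟨F', hF', closure_mono ?_ hz⟩
  rintro y ⟨d, G, g, hG, hC, hy⟩
  exact closable_of_per hG hC F' y hy

variable {d : ℕ} {G : Subgroup (Md d)ˣ} {g : Submodule ℝ (Md d)} {ρ : G → N → N}

theorem skew_diff {a : N → G} {F₀ F F₁ : DiffM n N r} (h : IsSkew ρ a F₀ F)
    (h1 : Comm ρ F₁) :
    IsSkew ρ (fun y => a (F₀.symm (F₁ y))) F₁ ((F₁.trans F₀.symm).trans F) where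
  inv u y := by
    have h2 : F₀.symm (F₁ (ρ u y)) = ρ u (F₀.symm (F₁ y)) := by
      rw [h1]
      apply F₀.injective
      show F₀ (F₀.symm (ρ u (F₁ y))) = F₀ (ρ u (F₀.symm (F₁ y)))
      rw [F₀.apply_symm_apply, h.comm, F₀.apply_symm_apply]
    show a (F₀.symm (F₁ (ρ u y))) = a (F₀.symm (F₁ y))
    rw [h2, h.inv]
  comm := h1
  eq y := by
    show F (F₀.symm (F₁ y)) = _
    rw [h.eq, F₀.apply_symm_apply]

/-- Skew products over a map which can be closed at `z` by maps which commute with the action. -/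
theorem extension (hG : IsLie G g) (hC : HasCartan g) (hρ : IsGAction G n N univ ρ) {a : N → G}
    (F₀ F : DiffM n N r) (h : IsSkew ρ a F₀ F) (z : N) (hz : IsLatticePt G g ρ z)
    (hc : EqClosable n N r ρ F₀ z) : ClosableAt n N r F z := by
  have hcomp : S_COMP := Pool.Agent.W917.SC.comp
  obtain ⟨f, hf, hcv⟩ := Cv.exists_seq hcomp F₀ (fun f => Comm ρ f ∧ IsPer f z) hc
  refine main F z fun U hU hFU => ?_
  have c1 := Cv.trans hcomp (Cv.trans hcomp hcv (Cv.const F₀.symm)) (Cv.const F)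
  have e : (F₀.trans F₀.symm).trans F = F := by
    ext y
    show F (F₀.symm (F₀ y)) = F y
    rw [F₀.symm_apply_apply]
  rw [e] at c1
  obtain ⟨m, hm⟩ := (c1.mem hU hFU).exists
  exact ⟨_, hm, subset_closure ⟨d, G, g, hG, hC, skew_per (fun y => hρ.one y (mem_univ _))
    (fun u v y => hρ.mul u v y (mem_univ _)) hρ (skew_diff h (hf m).1) hz (hf m).2⟩⟩

/-- Quasi-periodic cocycles. -/
theorem quasiperiodic (hG : IsLie G g) (hC : HasCartan g) {e : ℕ} (hρ : IsGAction G n N univ ρ)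
    {R : V e → N → N} (hR : IsTorusAct e n N R) (hRρ : ∀ a, Comm ρ (R a)) (α : V e) {a : N → G}
    (F₀ F : DiffM n N r) (hF₀ : ∀ y, F₀ y = R α y) (h : IsSkew ρ a F₀ F) (z : N)
    (hz : IsLatticePt G g ρ z) : ClosableAt n N r F z := by
  refine extension hG hC hρ F₀ F h z hz fun U hU hU0 => ?_
  obtain ⟨H, hfam, hH⟩ := tor_fam hR r α
  have e : H 0 = F₀ := by
    ext y
    rw [hH, add_zero, hF₀]
  rw [← e] at hU0
  obtain ⟨b, hb, hint⟩ := rat_approx α
  obtain ⟨k, hk⟩ := ((Cv.fam Pool.Agent.W917.SC.comp hfam hb).mem hU hU0).exists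
  refine ⟨H (b k), hk, fun u y => by rw [hH, hH]; exact hRρ _ u y, k + 1, by omega, ?_⟩
  have e2 : (H (b k) : N → N) = R (α + b k) := by
    funext y
    rw [hH]
  rw [e2, R_iter hR]
  exact hR.int _ (hint k) z

/-- all translations -/
theorem translation (hG : IsLie G g) (hC : HasCartan g) (hρ : IsGAction G n N univ ρ) (h : G)
    (F : DiffM n N r) (hF : ∀ y, F y = ρ h y) (z : N) (hz : IsLatticePt G g ρ z) :
    ClosableAt n N r F z :=
  extension hG hC hρ (Diffeomorph.refl (𝓡 n) N r) F (a := fun _ => h)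
    ⟨fun _ _ => rfl, fun _ _ => rfl, hF⟩ z hz (fun _ _ hU => ⟨_, hU, fun _ _ => rfl, 1, le_rfl, rfl⟩)

end Run7.h619.HG
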