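import Pool.Agent.Run7.h619.HG.Close
import Pool.Agent.TH382.QC.Defs

/-!
# Periodic homogeneous submanifolds `G / Γ`: definitions
-/

set_option autoImplicit false

open scoped Manifold ContDiff Topology
open Filter Set

universe u

namespace Run7.h619.HG

open Pool.Agent.H718R2.G Pool.Agent.TH382.QC

/-- the algebra of the linear maps of `ℝᵈ` (the real `d × d` matrices), with the operator norm -/
abbrev Md (d : ℕ) := V d →L[ℝ] V d

section

variable {A : Type*} [NormedRing A] [NormedAlgebra ℝ A] [CompleteSpace A]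

/-- `act` is a smooth action of the linear Lie group `G` on the open subset `O` of the manifold `N`.
Smoothness: for every family `c` of elements of `G` which depend smoothly on a parameter `s ∈ ℝʲ`, the
map `(s, y) ↦ c(s) y` is smooth. -/
structure IsGAction (G : Subgroup Aˣ) (n : ℕ) (N : Type u) [TopologicalSpace N]
    [ChartedSpace (V n) N] (O : Set N) (act : G → N → N) : Prop where
  isOpen : IsOpen O
  maps : ∀ u, ∀ y ∈ O, act u y ∈ O
  one : ∀ y ∈ O, act 1 y = y
  mul : ∀ u v, ∀ y ∈ O, act (u * v) y = act u (act v y)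
  cont : ContinuousOn (fun p : G × N => act p.1 p.2) (univ ×ˢ O)
  smooth : ∀ (j : ℕ) (c : V j → G), ContDiff ℝ ∞ (fun s => ((c s : Aˣ) : A)) →
    ContMDiffOn ((𝓡 j).prod (𝓡 n)) (𝓡 n) ∞ (fun p : V j × N => act (c p.1) p.2) (univ ×ˢ O)

/-- the orbit of `y` is compact: `G y = K y` for some compact set `K` -/
def CompactOrbit {G : Subgroup Aˣ} {N : Type u} (act : G → N → N) (y : N) : Prop :=
  ∃ K : Set G, IsCompact K ∧ ∀ u, ∃ k ∈ K, act u y = act k y

/-- The orbit `G y = G / Γ` of `y` is compact, where `Γ` is the stabiliser of `y`, and the elements `X`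
of the Lie algebra `g` for which every bounded set contains only finitely many of the elements
`γ⁻¹ X γ`, `γ ∈ Γ`, are dense in `g`. -/
structure IsLatticePt (G : Subgroup Aˣ) (g : Submodule ℝ A) {N : Type u} (act : G → N → N)
    (y : N) : Prop where
  compact : CompactOrbit act y
  dense : ∀ Y ∈ g, ∀ ε : ℝ, 0 < ε → ∃ X ∈ g, ‖X - Y‖ < ε ∧
    ∀ R : ℝ, {Z : A | ‖Z‖ ≤ R ∧ ∃ γ : G, act γ y = y ∧
      Z = (((γ : Aˣ)⁻¹ : Aˣ) : A) * X * ((γ : Aˣ) : A)}.Finite

/-- The orbit `G y = G / Γ` of `y` is compact and its stabiliser `Γ` is arithmetic: for some discrete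
subring `R` of the algebra `A ⊇ G` (for example the integer matrices, or their conjugates by a real
matrix), the Lie algebra `g` is spanned by elements of `R`, and `D γ ∈ R` for all `γ ∈ Γ`, for some
integer `D ≥ 1`. -/
structure IsArithPt (G : Subgroup Aˣ) (g : Submodule ℝ A) {N : Type u} (act : G → N → N)
    (y : N) : Prop where
  compact : CompactOrbit act y
  arith : ∃ R : Subring A, (∀ C : ℝ, {x : A | x ∈ R ∧ ‖x‖ ≤ C}.Finite) ∧
    g = Submodule.span ℝ {x : A | x ∈ g ∧ x ∈ R} ∧
    ∃ D : ℕ, 1 ≤ D ∧ ∀ γ : G, act γ y = y → (D : A) * ((γ : Aˣ) : A) ∈ R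

/-- `y` lies on a homogeneous periodic submanifold `C ≅ G / Γ` of `F`: `G` acts smoothly on an open set
`O` which contains `y`, with compact orbit `C = G y` satisfying the condition `P`; `C` is periodic with
some period `m ≥ 1` (`F^i(C)` does not meet `C` for `1 ≤ i < m`), and on `C` the map `F^m` is
`u y ↦ h u k y` for some `h` and some `k` with `k^l ∈ Γ` for some `l ≥ 1` (a translation if `k = 1`; in
general, `u y ↦ u k y` is a map of finite order of `C` which commutes with the action). Nothing is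
required of `F` outside of `C, F(C), ..., F^(m-1)(C)`. -/
def IsPerOrbit (G : Subgroup Aˣ) (n : ℕ) (N : Type u) [TopologicalSpace N]
    [ChartedSpace (V n) N] (P : (G → N → N) → N → Prop) (F : N → N) (y : N) : Prop :=
  ∃ (O : Set N) (act : G → N → N), IsGAction G n N O act ∧ y ∈ O ∧ P act y ∧
    ∃ m : ℕ, 1 ≤ m ∧
      (∃ (h k : G) (l : ℕ), 1 ≤ l ∧ act (k ^ l) y = y ∧
        ∀ u, F^[m] (act u y) = act (h * u * k) y) ∧
      ∀ i, 1 ≤ i → i < m → ∀ u v, F^[i] (act u y) ≠ act v y

end

end Run7.h619.HG
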