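import Mathlib

/-!
# The exponential map of a Banach algebra near `0`
-/

set_option autoImplicit false

open scoped Topology
open Filter Set Metric NormedSpace

namespace Run7.h619.HG

section Banach

variable {A : Type*} [NormedRing A] [NormedAlgebra ℝ A] [CompleteSpace A]

theorem exp_add' {x y : A} (h : Commute x y) : exp (x + y) = exp x * exp y := by
  let _ : NormedAlgebra ℚ A := NormedAlgebra.restrictScalars ℚ ℝ A
  exact exp_add_of_commute h

theorem exp_cont : Continuous (exp : A → A) := by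
  let _ : NormedAlgebra ℚ A := NormedAlgebra.restrictScalars ℚ ℝ A
  exact exp_continuous

theorem exp_mul_neg (x : A) : exp x * exp (-x) = 1 := by
  rw [← exp_add' (Commute.refl x).neg_right, add_neg_cancel, exp_zero]

theorem exp_neg_mul (x : A) : exp (-x) * exp x = 1 := by
  rw [← exp_add' (Commute.refl x).neg_left, neg_add_cancel, exp_zero]

/-- the exponential as a unit -/
noncomputable def eu (W : A) : Aˣ := ⟨exp W, exp (-W), exp_mul_neg W, exp_neg_mul W⟩

@[simp] theorem eu_val (W : A) : ((eu W : Aˣ) : A) = exp W := rfl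

@[simp] theorem eu_inv_val (W : A) : (((eu W)⁻¹ : Aˣ) : A) = exp (-W) := rfl

theorem eu_zero : eu (0 : A) = 1 := by
  ext
  rw [eu_val, exp_zero, Units.val_one]

theorem eu_add {x y : A} (h : Commute x y) : eu (x + y) = eu x * eu y := by
  ext
  rw [eu_val, exp_add' h, Units.val_mul, eu_val, eu_val]

theorem eu_neg (x : A) : eu (-x) = (eu x)⁻¹ := by
  ext
  rw [eu_val, eu_inv_val]

theorem eu_conj (u : Aˣ) (W : A) : eu ((u : A) * W * ((u⁻¹ : Aˣ) : A)) = u * eu W * u⁻¹ := by
  let _ : NormedAlgebra ℚ A := NormedAlgebra.restrictScalars ℚ ℝ A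
  ext
  rw [eu_val, exp_units_conj, Units.val_mul, Units.val_mul, eu_val]

theorem eu_cont : Continuous (eu : A → Aˣ) := by
  rw [Units.continuous_iff]
  constructor
  · exact exp_cont
  · have h : (fun x : A => (((eu x)⁻¹ : Aˣ) : A)) = fun x => exp (-x) := rfl
    exact h ▸ exp_cont.comp continuous_neg

theorem comm_eu {x y : A} (h : Commute x y) : Commute x ((eu y : Aˣ) : A) := h.exp_right

theorem eu_nsmul (n : ℕ) (W : A) : eu ((n : ℝ) • W) = eu W ^ n := by
  induction n with
  | zero => rw [Nat.cast_zero, zero_smul, eu_zero, pow_zero]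
  | succ n ih =>
    rw [Nat.cast_succ, add_smul, one_smul, eu_add ((Commute.refl W).smul_left _), ih, pow_succ]

/-- `exp` is injective on a ball. -/
theorem exp_inj (A : Type*) [NormedRing A] [NormedAlgebra ℝ A] [CompleteSpace A] :
    ∃ ρ : ℝ, 0 < ρ ∧ ∀ x y : A, ‖x‖ < ρ → ‖y‖ < ρ → exp x = exp y → x = y := by
  have h : HasStrictFDerivAt (exp : A → A) ((ContinuousLinearEquiv.refl ℝ A : A →L[ℝ] A)) 0 := by
    have := hasStrictFDerivAt_exp_zero (𝕂 := ℝ) (𝔸 := A)
    exact this
  obtain ⟨s, hs, hinj⟩ : ∃ s ∈ 𝓝 (0 : A), InjOn exp s := by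
    let e := h.toOpenPartialHomeomorph (exp : A → A)
    refine ⟨e.source, e.open_source.mem_nhds h.mem_toOpenPartialHomeomorph_source, ?_⟩
    have h2 := e.injOn
    have h3 : (e : A → A) = exp := h.toOpenPartialHomeomorph_coe
    rwa [h3] at h2
  obtain ⟨ρ, hρ, hb⟩ := Metric.mem_nhds_iff.1 hs
  exact ⟨ρ, hρ, fun x y hx hy hxy => hinj (hb (by simpa using hx)) (hb (by simpa using hy)) hxy⟩

/-- An element which commutes with the exponential of a small `E` commutes with `E`. -/
theorem comm_of_exp (A : Type*) [NormedRing A] [NormedAlgebra ℝ A] [CompleteSpace A] :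
    ∃ ρ : ℝ, 0 < ρ ∧ ∀ E X : A, ‖E‖ < ρ → Commute X (exp E) → Commute X E := by
  let _ : NormedAlgebra ℚ A := NormedAlgebra.restrictScalars ℚ ℝ A
  obtain ⟨ρ, hρ, hinj⟩ := exp_inj A
  refine ⟨ρ, hρ, fun E X hE hX => ?_⟩
  -- the units `1 - s X`
  have hcont : Continuous fun s : ℝ => s • X := continuous_id.smul continuous_const
  have h0 : Tendsto (fun s : ℝ => ‖s • X‖) (𝓝 0) (𝓝 0) := by
    have := (hcont.norm).tendsto 0
    simpa using this
  have h1 : ∀ᶠ s : ℝ in 𝓝 0, ‖s • X‖ < 1 := h0.eventually (gt_mem_nhds one_pos)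
  have hinv : Tendsto (fun s : ℝ => (1 - s • X) * E * Ring.inverse (1 - s • X)) (𝓝 0)
      (𝓝 ((1 - (0 : ℝ) • X) * E * Ring.inverse (1 - (0 : ℝ) • X))) := by
    have hc : ContinuousAt (fun s : ℝ => (1 - s • X : A)) 0 := by fun_prop
    have hi : ContinuousAt (fun s : ℝ => Ring.inverse (1 - s • X : A)) 0 := by
      have h2 : ContinuousAt Ring.inverse ((1 : Aˣ) : A) := NormedRing.inverse_continuousAt 1
      have h3 : ContinuousAt Ring.inverse ((fun s : ℝ => (1 - s • X : A)) 0) := by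
        simpa using h2
      exact ContinuousAt.comp (g := Ring.inverse) (f := fun s : ℝ => (1 - s • X : A)) h3 hc
    exact (hc.mul continuousAt_const).mul hi
  have h2 : ∀ᶠ s : ℝ in 𝓝 0, ‖(1 - s • X) * E * Ring.inverse (1 - s • X)‖ < ρ := by
    have h4 : ‖(1 - (0 : ℝ) • X) * E * Ring.inverse (1 - (0 : ℝ) • X)‖ < ρ := by simpa using hE
    exact hinv.norm.eventually (gt_mem_nhds h4)
  have h3 : ∀ᶠ s : ℝ in 𝓝[≠] 0, ‖s • X‖ < 1 ∧ ‖(1 - s • X) * E * Ring.inverse (1 - s • X)‖ < ρ :=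
    (h1.and h2).filter_mono nhdsWithin_le_nhds
  obtain ⟨s, ⟨hs1, hs2⟩, hs0⟩ := (h3.and self_mem_nhdsWithin).exists
  obtain ⟨u, hu⟩ : ∃ u : Aˣ, (u : A) = 1 - s • X := ⟨Units.oneSub _ hs1, rfl⟩
  rw [← hu, Ring.inverse_unit] at hs2
  have hcu : Commute (u : A) (exp E) := by
    rw [hu]
    exact (Commute.one_left _).sub_left (hX.smul_left s)
  have hexp : exp ((u : A) * E * ((u⁻¹ : Aˣ) : A)) = exp E := by
    rw [exp_units_conj, hcu.eq, mul_assoc, Units.mul_inv, mul_one]
  have h4 := hinj _ _ hs2 hE hexp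
  have h5 : Commute (u : A) E := by
    show (u : A) * E = E * u
    calc (u : A) * E = (u : A) * E * ((u⁻¹ : Aˣ) : A) * u := by
          rw [mul_assoc _ _ (u : A), Units.inv_mul, mul_one]
      _ = E * u := by rw [h4]
  have h6 : Commute (s • X) E := by
    have : s • X = 1 - (u : A) := by rw [hu]; abel
    rw [this]
    exact (Commute.one_left _).sub_left h5
  have hs0' : s ≠ 0 := hs0
  have h7 : X = s⁻¹ • (s • X) := by rw [smul_smul, inv_mul_cancel₀ hs0', one_smul]
  rw [h7]
  exact h6.smul_left _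

end Banach

end Run7.h619.HG
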