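import Pool.Agent.Run7.h619.HG.Lin

/-!
# Compact orbits of centralisers
-/

set_option autoImplicit false

open scoped Topology
open Filter Set Metric NormedSpace

namespace Run7.h619.HG

variable {A : Type*} [NormedRing A] [NormedAlgebra ℝ A] [CompleteSpace A]

/-- the centraliser of `Y` in `g` is abelian -/
def Abel (g : Submodule ℝ A) (Y : A) : Prop := ∀ U ∈ cen g Y, ∀ V ∈ cen g Y, Commute U V

/-- Only finitely many elements of the orbit of `X` under conjugation by the elements of `Γ` lie in a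
bounded set. -/
def LocFin (Γ : Subgroup Aˣ) (X : A) : Prop :=
  ∀ R : ℝ, {Z : A | ‖Z‖ ≤ R ∧ ∃ γ ∈ Γ, Z = ((γ⁻¹ : Aˣ) : A) * X * (γ : A)}.Finite

section sc

variable [FiniteDimensional ℝ A] {G : Subgroup Aˣ} {g : Submodule ℝ A}

theorem norm_br_le (x y : A) : ‖br x y‖ ≤ 2 * ‖x‖ * ‖y‖ := by
  unfold br
  have h1 := norm_sub_le (x * y) (y * x)
  have h2 := norm_mul_le x y
  have h3 := norm_mul_le y x
  nlinarith [norm_nonneg x, norm_nonneg y]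

/-- The centraliser does not change if `Y` moves a little in its abelian centraliser. -/
theorem cen_eq (hG : IsLie G g) {Y : A} (hY : Y ∈ g) (hss : SS g Y) (hab : Abel g Y) :
    ∃ ε : ℝ, 0 < ε ∧ ∀ C ∈ cen g Y, ‖C - Y‖ < ε → cen g C = cen g Y := by
  obtain ⟨f, hf⟩ := br_lin Y
  let n : Submodule ℝ A := g.map f
  have hn : ∀ x ∈ n, ∃ U ∈ g, x = br Y U := by
    rintro x ⟨U, hU, rfl⟩
    exact ⟨U, hU, hf U⟩
  let f' : n →ₗ[ℝ] A := f.domRestrict n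
  have hinj : Function.Injective f' := by
    rw [← LinearMap.ker_eq_bot, LinearMap.ker_eq_bot']
    intro x hx
    obtain ⟨U, hU, hxU⟩ := hn x x.2
    have h1 : br Y (x : A) = 0 := by
      rw [← hf]
      exact hx
    rw [br_eq_zero, hxU] at h1
    have h2 := hss U hU h1
    rw [← br_eq_zero, ← hxU] at h2
    exact Subtype.ext h2
  obtain ⟨K, hK0, hK⟩ := f'.exists_antilipschitzWith (LinearMap.ker_eq_bot.2 hinj)
  have hKr : (0 : ℝ) < K := by exact_mod_cast hK0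
  have hbd : ∀ x ∈ n, ‖x‖ ≤ K * ‖br Y x‖ := by
    intro x hx
    have h1 := hK.le_mul_dist ⟨x, hx⟩ 0
    rw [dist_zero_right, map_zero, dist_zero_right] at h1
    have h2 : f' ⟨x, hx⟩ = br Y x := hf x
    rw [h2] at h1
    exact h1
  refine ⟨1 / (4 * K), by positivity, fun C hC hCY => ?_⟩
  apply le_antisymm
  · rintro U ⟨hU, hCU⟩
    obtain ⟨U₁, hU₁, U', hU', hUe⟩ := decomp (fun U hU => br_mem hG hY hU) hss hU
    have hmem : br Y U' ∈ n := ⟨U', hU', hf U'⟩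
    have h1 : br C (br Y U') = 0 := by
      have h2 : br C U = br C U₁ + br C (br Y U') := by
        rw [hUe]
        unfold br
        noncomm_ring
      have h3 : br C U = 0 := br_eq_zero.2 hCU
      have h4 : br C U₁ = 0 := br_eq_zero.2 (hab C hC U₁ hU₁)
      rw [h3, h4, zero_add] at h2
      exact h2.symm
    have h2 : br Y (br Y U') = br (Y - C) (br Y U') := by
      have : br Y (br Y U') = br (Y - C) (br Y U') + br C (br Y U') := by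
        unfold br
        noncomm_ring
      rw [this, h1, add_zero]
    have h3 := hbd _ hmem
    rw [h2] at h3
    have h4 := norm_br_le (Y - C) (br Y U')
    have h5 : ‖Y - C‖ < 1 / (4 * K) := by rwa [norm_sub_rev]
    have h6 : br Y U' = 0 := by
      by_contra hne
      have h7 : 0 < ‖br Y U'‖ := norm_pos_iff.2 hne
      have h8 : ‖br Y U'‖ ≤ K * (2 * ‖Y - C‖ * ‖br Y U'‖) :=
        h3.trans (mul_le_mul_of_nonneg_left h4 hKr.le)
      have h9 : (K : ℝ) * (2 * ‖Y - C‖) < 1 := by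
        have : (K : ℝ) * (2 * ‖Y - C‖) < K * (2 * (1 / (4 * K))) := by
          apply mul_lt_mul_of_pos_left _ hKr
          linarith
        have e : (K : ℝ) * (2 * (1 / (4 * K))) = 1 / 2 := by field_simp; norm_num
        linarith
      nlinarith
    rw [hUe, h6, add_zero]
    exact hU₁
  · intro U hU
    exact ⟨hU.1, hab C hC U hU⟩

end sc

section latt

variable {G : Subgroup Aˣ} {g : Submodule ℝ A} {Γ : Subgroup Aˣ} {K : Set Aˣ}

/-- `Γ` is a subgroup of `G` and `G = K Γ` for the compact set `K` -/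
structure Coc (G Γ : Subgroup Aˣ) (K : Set Aˣ) : Prop where
  le : Γ ≤ G
  comp : IsCompact K
  cov : ∀ u ∈ G, ∃ γ ∈ Γ, u * γ ∈ K

theorem comm_conj {u : Aˣ} {X Y : A} (hX : Commute (u : A) X) (hY : Commute X Y) :
    Commute X ((u : A) * Y * ((u⁻¹ : Aˣ) : A)) := by
  have h1 : Commute X (u : A) := hX.symm
  have h2 : Commute X ((u⁻¹ : Aˣ) : A) := hX.symm.units_inv_right
  exact (h1.mul_right hY).mul_right h2

theorem conj_cen (hG : IsLie G g) {u : Aˣ} (hu : u ∈ G) {X Y : A} (hX : Commute (u : A) X)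
    (hY : Y ∈ cen g X) : (u : A) * Y * ((u⁻¹ : Aˣ) : A) ∈ cen g X :=
  ⟨ad_mem hG hu hY.1, comm_conj hX hY.2⟩

theorem conj_cen' (hG : IsLie G g) {u : Aˣ} (hu : u ∈ G) {X Y : A} (hX : Commute (u : A) X)
    (hY : Y ∈ cen g X) : ((u⁻¹ : Aˣ) : A) * Y * (u : A) ∈ cen g X := by
  have h1 : Commute ((u⁻¹ : Aˣ) : A) X := hX.units_inv_left
  have := conj_cen hG (G.inv_mem hu) h1 hY
  rwa [inv_inv] at this

/-- The centraliser of `X` in `G` is compact modulo `Γ`: finitely many translates of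
`exp (ball) Γ` cover it. -/
theorem cells (hG : IsLie G g) (hK : Coc G Γ K) {X : A} (hloc : LocFin Γ X) :
    ∃ (S : Set Aˣ) (D : ℝ), S.Finite ∧ (∀ u ∈ S, u ∈ G ∧ Commute (u : A) X) ∧
      ∀ u ∈ G, Commute (u : A) X → ∃ u₀ ∈ S, ∃ E ∈ cen g X, ‖E‖ ≤ D ∧ ∃ γ ∈ Γ,
        Commute (γ : A) X ∧ u = u₀ * eu E * γ := by
  classical
  obtain ⟨ρ, hρ, hcomm⟩ := comm_of_exp A
  obtain ⟨δ, hδ, hlog⟩ := hG.log ρ hρ
  -- a neighbourhood of `1`
  obtain ⟨W, hW, hWδ⟩ : ∃ W ∈ 𝓝 (1 : Aˣ), ∀ a ∈ W, ∀ b ∈ W, ‖((a⁻¹ * b : Aˣ) : A) - 1‖ < δ := by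
    have hc : Continuous fun q : Aˣ × Aˣ => ‖((q.1⁻¹ * q.2 : Aˣ) : A) - 1‖ := by
      have h1 : Continuous fun q : Aˣ × Aˣ => (q.1⁻¹ * q.2 : Aˣ) := by fun_prop
      exact ((Units.continuous_val.comp h1).sub continuous_const).norm
    have h2 : ∀ᶠ q : Aˣ × Aˣ in 𝓝 (1, 1), ‖((q.1⁻¹ * q.2 : Aˣ) : A) - 1‖ < δ := by
      have := hc.tendsto (1, 1)
      simp only [inv_one, mul_one, Units.val_one, sub_self, norm_zero] at this
      exact this.eventually (gt_mem_nhds hδ)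
    rw [nhds_prod_eq] at h2
    obtain ⟨W, hW, h3⟩ := Filter.eventually_prod_self_iff'.1 h2
    exact ⟨W, hW, fun a ha b hb => h3 a ha b hb⟩
  -- the finite cover
  obtain ⟨T, hTK, hT⟩ := hK.comp.elim_nhds_subcover (fun p => (fun u : Aˣ => p⁻¹ * u) ⁻¹' W)
    (fun p _ => by
      have hc : Continuous fun u : Aˣ => p⁻¹ * u := by fun_prop
      apply hc.continuousAt
      simp only [inv_mul_cancel]
      exact hW)
  -- the labels
  obtain ⟨R, hR⟩ : ∃ R : ℝ, ∀ k ∈ K, ‖((k⁻¹ : Aˣ) : A) * X * (k : A)‖ ≤ R := by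
    have hc : Continuous fun k : Aˣ => ((k⁻¹ : Aˣ) : A) * X * (k : A) := by
      have h1 : Continuous fun k : Aˣ => ((k⁻¹ : Aˣ) : A) := Units.continuous_coe_inv
      have h2 : Continuous fun k : Aˣ => (k : A) := Units.continuous_val
      exact (h1.mul continuous_const).mul h2
    obtain ⟨R, hR⟩ := (hK.comp.image hc).isBounded.exists_norm_le
    exact ⟨R, fun k hk => hR _ ⟨k, hk, rfl⟩⟩
  have hF := hloc R
  obtain ⟨F, hFdef⟩ : ∃ F, F = {Z : A | ‖Z‖ ≤ R ∧ ∃ γ ∈ Γ, Z = ((γ⁻¹ : Aˣ) : A) * X * (γ : A)} :=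
    ⟨_, rfl⟩
  rw [← hFdef] at hF
  -- cells
  let P : Aˣ × A → Aˣ × Aˣ → Prop := fun c v =>
    v.1 ∈ G ∧ Commute (v.1 : A) X ∧ v.2 ∈ Γ ∧ v.1 * v.2 ∈ K ∧ c.1⁻¹ * (v.1 * v.2) ∈ W ∧
      c.2 = ((v.2⁻¹ : Aˣ) : A) * X * (v.2 : A)
  have hch : ∀ c : Aˣ × A, ∃ v : Aˣ × Aˣ, (∃ v', P c v') → P c v := by
    intro c
    by_cases h : ∃ v', P c v'
    · obtain ⟨v, hv⟩ := h
      exact ⟨v, fun _ => hv⟩
    · exact ⟨1, fun h' => absurd h' h⟩
  choose rep hrep using hch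
  obtain ⟨Cs, hCs⟩ : ∃ Cs : Set (Aˣ × A), Cs = {c | c.1 ∈ T ∧ c.2 ∈ F ∧ ∃ v, P c v} := ⟨_, rfl⟩
  have hCsf : Cs.Finite := by
    rw [hCs]
    exact (T.finite_toSet.prod hF).subset fun c hc => ⟨hc.1, hc.2.1⟩
  obtain ⟨D, hD⟩ : ∃ D : ℝ, ∀ c ∈ Cs,
      ‖(((rep c).2 : Aˣ) : A)‖ * ρ * ‖(((rep c).2⁻¹ : Aˣ) : A)‖ ≤ D := by
    obtain ⟨D, hD⟩ := (hCsf.image fun c =>
      ‖(((rep c).2 : Aˣ) : A)‖ * ρ * ‖(((rep c).2⁻¹ : Aˣ) : A)‖).bddAbove
    exact ⟨D, fun c hc => hD ⟨c, hc, rfl⟩⟩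
  refine ⟨(fun c => (rep c).1) '' Cs, D, hCsf.image _, ?_, ?_⟩
  · rintro u ⟨c, hc, rfl⟩
    rw [hCs] at hc
    have h1 := hrep c hc.2.2
    exact ⟨h1.1, h1.2.1⟩
  · intro u hu huX
    obtain ⟨γ, hγ, hk⟩ := hK.cov u hu
    obtain ⟨p, hpT, hp⟩ : ∃ p ∈ T, p⁻¹ * (u * γ) ∈ W := by
      have := hT hk
      simp only [mem_iUnion, mem_preimage, exists_prop] at this
      exact this
    have hlab : ((γ⁻¹ : Aˣ) : A) * X * (γ : A) =
        (((u * γ)⁻¹ : Aˣ) : A) * X * ((u * γ : Aˣ) : A) := by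
      rw [mul_inv_rev, Units.val_mul, Units.val_mul]
      have h1 : ((u⁻¹ : Aˣ) : A) * X * (u : A) = X := by
        rw [huX.units_inv_left.eq, mul_assoc, Units.inv_mul, mul_one]
      calc ((γ⁻¹ : Aˣ) : A) * X * (γ : A) =
            ((γ⁻¹ : Aˣ) : A) * (((u⁻¹ : Aˣ) : A) * X * (u : A)) * (γ : A) := by rw [h1]
        _ = _ := by simp only [mul_assoc]
    obtain ⟨c, hc⟩ : ∃ c : Aˣ × A, c = (p, ((γ⁻¹ : Aˣ) : A) * X * (γ : A)) := ⟨_, rfl⟩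
    have hPc : P c (u, γ) := by
      rw [hc]
      exact ⟨hu, huX, hγ, hk, hp, rfl⟩
    have hcC : c ∈ Cs := by
      rw [hCs]
      refine ⟨by rw [hc]; exact hpT, ?_, ⟨_, hPc⟩⟩
      rw [hc, hFdef]
      refine ⟨?_, γ, hγ, rfl⟩
      show ‖((γ⁻¹ : Aˣ) : A) * X * (γ : A)‖ ≤ R
      rw [hlab]
      exact hR _ hk
    have hr := hrep c ⟨_, hPc⟩
    obtain ⟨v, hv⟩ : ∃ v, v = rep c := ⟨_, rfl⟩
    rw [← hv] at hr
    obtain ⟨hv1, hv2, hv3, hv4, hv5, hv6⟩ := hr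
    have hcW : c.1⁻¹ * (u * γ) ∈ W := hPc.2.2.2.2.1
    have hcZ : c.2 = ((γ⁻¹ : Aˣ) : A) * X * (γ : A) := hPc.2.2.2.2.2
    -- the small element
    obtain ⟨e, he⟩ : ∃ e : Aˣ, e = (v.1 * v.2)⁻¹ * (u * γ) := ⟨_, rfl⟩
    have heG : e ∈ G := by
      rw [he]
      exact G.mul_mem (G.inv_mem (G.mul_mem hv1 (hK.le hv3))) (G.mul_mem hu (hK.le hγ))
    have heδ : ‖(e : A) - 1‖ < δ := by
      have := hWδ _ hv5 _ hcW
      have e2 : (c.1⁻¹ * (v.1 * v.2))⁻¹ * (c.1⁻¹ * (u * γ)) = e := by rw [he]; group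
      rwa [e2] at this
    obtain ⟨E, hE, hEρ, heE⟩ := hlog e heG heδ
    have hkey : ∀ w : Aˣ, Commute (w : A) X → ∀ γ' : Aˣ,
        ((γ'⁻¹ : Aˣ) : A) * X * (γ' : A) = (((w * γ')⁻¹ : Aˣ) : A) * X * ((w * γ' : Aˣ) : A) := by
      intro w hw γ'
      rw [mul_inv_rev, Units.val_mul, Units.val_mul]
      have h1 : ((w⁻¹ : Aˣ) : A) * X * (w : A) = X := by
        rw [hw.units_inv_left.eq, mul_assoc, Units.inv_mul, mul_one]
      calc ((γ'⁻¹ : Aˣ) : A) * X * (γ' : A) =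
            ((γ'⁻¹ : Aˣ) : A) * (((w⁻¹ : Aˣ) : A) * X * (w : A)) * (γ' : A) := by rw [h1]
        _ = _ := by simp only [mul_assoc]
    -- `e` commutes with the label
    have hce : Commute c.2 (e : A) := by
      have h1 : c.2 = (((v.1 * v.2)⁻¹ : Aˣ) : A) * X * ((v.1 * v.2 : Aˣ) : A) := by
        rw [hv6]; exact hkey _ hv2 _
      have h2 : c.2 = (((u * γ)⁻¹ : Aˣ) : A) * X * ((u * γ : Aˣ) : A) := by
        rw [hcZ]; exact hkey _ huX _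
      show c.2 * (e : A) = (e : A) * c.2
      have h3 : ((e : Aˣ) : A) = (((v.1 * v.2)⁻¹ : Aˣ) : A) * ((u * γ : Aˣ) : A) := by
        rw [he, Units.val_mul]
      calc c.2 * (e : A) = ((((v.1 * v.2)⁻¹ : Aˣ) : A) * X * ((v.1 * v.2 : Aˣ) : A)) *
            ((((v.1 * v.2)⁻¹ : Aˣ) : A) * ((u * γ : Aˣ) : A)) := by rw [← h1, h3]
        _ = (((v.1 * v.2)⁻¹ : Aˣ) : A) * X *
            (((v.1 * v.2 : Aˣ) : A) * (((v.1 * v.2)⁻¹ : Aˣ) : A)) * ((u * γ : Aˣ) : A) := by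
            simp only [mul_assoc]
        _ = (((v.1 * v.2)⁻¹ : Aˣ) : A) * X * ((u * γ : Aˣ) : A) := by
            rw [Units.mul_inv, mul_one]
        _ = (((v.1 * v.2)⁻¹ : Aˣ) : A) * (((u * γ : Aˣ) : A) * (((u * γ)⁻¹ : Aˣ) : A)) * X *
            ((u * γ : Aˣ) : A) := by rw [Units.mul_inv, mul_one]
        _ = ((((v.1 * v.2)⁻¹ : Aˣ) : A) * ((u * γ : Aˣ) : A)) *
            ((((u * γ)⁻¹ : Aˣ) : A) * X * ((u * γ : Aˣ) : A)) := by simp only [mul_assoc]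
        _ = (e : A) * c.2 := by rw [← h2, h3]
    have hcE : Commute c.2 E := by
      apply hcomm E _ hEρ
      rw [heE, eu_val] at hce
      exact hce
    obtain ⟨E', hE'⟩ : ∃ E' : A, E' = (v.2 : A) * E * ((v.2⁻¹ : Aˣ) : A) := ⟨_, rfl⟩
    have hE'X : Commute X E' := by
      have hX : X = (v.2 : A) * c.2 * ((v.2⁻¹ : Aˣ) : A) := by
        rw [hv6]
        calc X = (v.2 : A) * ((v.2⁻¹ : Aˣ) : A) * X * ((v.2 : A) * ((v.2⁻¹ : Aˣ) : A)) := by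
              rw [Units.mul_inv, one_mul, mul_one]
          _ = _ := by simp only [mul_assoc]
      rw [hX, hE']
      show (v.2 : A) * c.2 * ((v.2⁻¹ : Aˣ) : A) * ((v.2 : A) * E * ((v.2⁻¹ : Aˣ) : A)) =
        (v.2 : A) * E * ((v.2⁻¹ : Aˣ) : A) * ((v.2 : A) * c.2 * ((v.2⁻¹ : Aˣ) : A))
      have h1 : ∀ x y : A, (v.2 : A) * x * ((v.2⁻¹ : Aˣ) : A) * ((v.2 : A) * y * ((v.2⁻¹ : Aˣ) : A)) =
          (v.2 : A) * (x * y) * ((v.2⁻¹ : Aˣ) : A) := by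
        intro x y
        calc (v.2 : A) * x * ((v.2⁻¹ : Aˣ) : A) * ((v.2 : A) * y * ((v.2⁻¹ : Aˣ) : A)) =
              (v.2 : A) * x * (((v.2⁻¹ : Aˣ) : A) * (v.2 : A)) * y * ((v.2⁻¹ : Aˣ) : A) := by
              simp only [mul_assoc]
          _ = (v.2 : A) * (x * y) * ((v.2⁻¹ : Aˣ) : A) := by
              rw [Units.inv_mul, mul_one]; simp only [mul_assoc]
      rw [h1, h1, hcE.eq]
    refine ⟨v.1, ⟨c, hcC, by rw [hv]⟩, E', ⟨?_, hE'X⟩, ?_, v.2 * γ⁻¹, Γ.mul_mem hv3 (Γ.inv_mem hγ), ?_, ?_⟩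
    · rw [hE']
      exact ad_mem hG (hK.le hv3) hE
    · have h1 := hD c hcC
      rw [← hv] at h1
      refine le_trans ?_ h1
      rw [hE']
      refine (norm_mul_le _ _).trans ?_
      refine mul_le_mul_of_nonneg_right ?_ (norm_nonneg _)
      refine (norm_mul_le _ _).trans ?_
      exact mul_le_mul_of_nonneg_left hEρ.le (norm_nonneg _)
    · have h1 : (v.2 * γ⁻¹ : Aˣ) = (eu E')⁻¹ * v.1⁻¹ * u := by
        have h2 : eu E' = v.2 * eu E * v.2⁻¹ := by rw [hE', eu_conj]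
        rw [h2, ← heE, he]
        group
      rw [h1, Units.val_mul, Units.val_mul]
      have h3 : Commute (((eu E')⁻¹ : Aˣ) : A) X := by
        apply Commute.units_inv_left
        exact (comm_eu hE'X).symm
      exact (h3.mul_left hv2.units_inv_left).mul_left huX
    · have h2 : eu E' = v.2 * eu E * v.2⁻¹ := by rw [hE', eu_conj]
      rw [h2, ← heE, he]
      group

/-- The elements `λ` of the abelian centraliser with `exp λ ∈ Γ` are relatively dense. -/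
theorem latt (hG : IsLie G g) (hK : Coc G Γ K) {X : A} (hloc : LocFin Γ X) (hab : Abel g X) :
    ∃ D : ℝ, ∀ E ∈ cen g X, ∃ l ∈ cen g X, eu l ∈ Γ ∧ ‖E - l‖ ≤ D := by
  classical
  obtain ⟨S, D, hS, hSG, hcov⟩ := cells hG hK hloc
  -- representatives
  let P : Aˣ → A × A × Aˣ → Prop := fun u₀ q => q.1 ∈ cen g X ∧ q.2.1 ∈ cen g X ∧ ‖q.2.1‖ ≤ D ∧
    q.2.2 ∈ Γ ∧ Commute (q.2.2 : A) X ∧ eu q.1 = u₀ * eu q.2.1 * q.2.2
  have hch : ∀ u₀ : Aˣ, ∃ q, (∃ q', P u₀ q') → P u₀ q := by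
    intro u₀
    by_cases h : ∃ q', P u₀ q'
    · obtain ⟨q, hq⟩ := h
      exact ⟨q, fun _ => hq⟩
    · exact ⟨⟨0, 0, 1⟩, fun h' => absurd h' h⟩
  choose q hq using hch
  obtain ⟨D', hD'⟩ := (hS.image fun u₀ =>
    ‖(q u₀).1‖ + ‖(((q u₀).2.2⁻¹ : Aˣ) : A)‖ * (2 * D) * ‖(((q u₀).2.2 : Aˣ) : A)‖).bddAbove
  refine ⟨D', fun E hE => ?_⟩
  have hEX : Commute ((eu E : Aˣ) : A) X := (comm_eu hE.2).symm
  obtain ⟨u₀, hu₀, E₂, hE₂, hE₂D, γ₂, hγ₂, hγ₂X, he⟩ := hcov (eu E) (hG.exp_mem _ hE.1) hEX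
  have hPE : P u₀ (E, E₂, γ₂) := ⟨hE, hE₂, hE₂D, hγ₂, hγ₂X, he⟩
  obtain ⟨h1, h2, h3, h4, h5, h6⟩ := hq u₀ ⟨_, hPE⟩
  obtain ⟨E₀, hE₀⟩ : ∃ E₀, E₀ = (q u₀).1 := ⟨_, rfl⟩
  obtain ⟨E₁, hE₁⟩ : ∃ E₁, E₁ = (q u₀).2.1 := ⟨_, rfl⟩
  obtain ⟨γ₁, hγ₁⟩ : ∃ γ₁, γ₁ = (q u₀).2.2 := ⟨_, rfl⟩
  rw [← hE₀] at h1 h6
  rw [← hE₁] at h2 h3 h6
  rw [← hγ₁] at h4 h5 h6
  obtain ⟨Z, hZ⟩ : ∃ Z : A, Z = ((γ₁⁻¹ : Aˣ) : A) * (E₂ - E₁) * (γ₁ : A) := ⟨_, rfl⟩
  have hZc : Z ∈ cen g X := by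
    rw [hZ]
    exact conj_cen' hG (hK.le h4) h5 ((cen g X).sub_mem hE₂ h2)
  have hZe : eu Z = γ₁⁻¹ * eu (E₂ - E₁) * γ₁ := by
    have := eu_conj γ₁⁻¹ (E₂ - E₁)
    rw [inv_inv] at this
    rw [hZ, this]
  have hsub : eu (E₂ - E₁) = (eu E₁)⁻¹ * eu E₂ := by
    rw [sub_eq_neg_add, eu_add ((hab _ h2 _ hE₂).neg_left), eu_neg]
  have hl : eu (E - E₀ - Z) = γ₁⁻¹ * γ₂ := by
    have c1 : Commute (E - E₀) (-Z) := (hab _ ((cen g X).sub_mem hE h1) _ hZc).neg_right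
    have c2 : Commute (-E₀) E := (hab _ h1 _ hE).neg_left
    have e1 : eu (E - E₀) = (eu E₀)⁻¹ * eu E := by
      rw [sub_eq_neg_add, eu_add c2, eu_neg]
    have c3 : Commute (-Z) (E - E₀) := c1.symm
    rw [sub_eq_neg_add (E - E₀) Z, eu_add c3, e1, eu_neg, hZe, hsub, he, h6]
    group
  refine ⟨E - E₀ - Z, (cen g X).sub_mem ((cen g X).sub_mem hE h1) hZc, ?_, ?_⟩
  · rw [hl]
    exact Γ.mul_mem (Γ.inv_mem h4) hγ₂
  · have e1 : E - (E - E₀ - Z) = E₀ + Z := by abel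
    rw [e1]
    refine (norm_add_le _ _).trans ?_
    refine le_trans ?_ (hD' ⟨u₀, hu₀, rfl⟩)
    simp only
    rw [← hE₀, ← hγ₁]
    refine add_le_add_right ?_ _
    rw [hZ]
    refine (norm_mul_le _ _).trans ?_
    refine mul_le_mul_of_nonneg_right ?_ (norm_nonneg _)
    refine (norm_mul_le _ _).trans ?_
    refine mul_le_mul_of_nonneg_left ?_ (norm_nonneg _)
    refine (norm_sub_le _ _).trans ?_
    linarith

/-- A power of `h` is the product of an exponential and an element of `Γ`. -/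
theorem power (hG : IsLie G g) (hK : Coc G Γ K) {X : A} (hloc : LocFin Γ X) (hab : Abel g X)
    {h : Aˣ} (hh : h ∈ G) (hX : X ∈ g) (hc : ∀ C ∈ cen g X, Commute (h : A) C) :
    ∃ q : ℕ, 1 ≤ q ∧ ∃ E ∈ cen g X, (eu E)⁻¹ * h ^ q ∈ Γ := by
  classical
  obtain ⟨S, D, hS, hSG, hcov⟩ := cells hG hK hloc
  have hhX : Commute (h : A) X := hc X ⟨hX, Commute.refl X⟩
  have hpow : ∀ n : ℕ, Commute ((h ^ n : Aˣ) : A) X := by
    intro n
    rw [Units.val_pow_eq_pow_val]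
    exact hhX.pow_left n
  choose u₀ hu₀ E hE hED γ hγ hγX he using fun n : ℕ => hcov (h ^ n) (G.pow_mem hh n) (hpow n)
  obtain ⟨i, j, hij, heq⟩ : ∃ i j : ℕ, i < j ∧ u₀ i = u₀ j := by
    have : ¬ Function.Injective fun n : ℕ => (⟨u₀ n, hu₀ n⟩ : S) := by
      have := hS.to_subtype
      exact not_injective_infinite_finite _
    simp only [Function.Injective, Subtype.mk.injEq, not_forall] at this
    obtain ⟨a, b, hab, hne⟩ := this
    rcases Nat.lt_or_gt_of_ne hne with h1 | h1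
    · exact ⟨a, b, h1, hab⟩
    · exact ⟨b, a, h1, hab.symm⟩
  obtain ⟨Z, hZ⟩ : ∃ Z : A, Z = ((γ i)⁻¹ : Aˣ) * (E j - E i) * (γ i : A) := ⟨_, rfl⟩
  have hZc : Z ∈ cen g X := by
    rw [hZ]
    exact conj_cen' hG (hK.le (hγ i)) (hγX i) ((cen g X).sub_mem (hE j) (hE i))
  have hZe : eu Z = (γ i)⁻¹ * eu (E j - E i) * γ i := by
    have := eu_conj (γ i)⁻¹ (E j - E i)
    rw [inv_inv] at this
    rw [hZ, this]
  have hsub : eu (E j - E i) = (eu (E i))⁻¹ * eu (E j) := by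
    rw [sub_eq_neg_add, eu_add ((hab _ (hE i) _ (hE j)).neg_left), eu_neg]
  refine ⟨j - i, by omega, Z, hZc, ?_⟩
  have e1 : h ^ (j - i) = (h ^ i)⁻¹ * h ^ j := by
    rw [eq_inv_mul_iff_mul_eq, ← pow_add]
    congr 1
    omega
  have e2 : (eu Z)⁻¹ * h ^ (j - i) = (γ i)⁻¹ * γ j := by
    rw [e1, he i, he j, ← heq, hZe, hsub]
    group
  rw [e2]
  exact Γ.mul_mem (Γ.inv_mem (hγ i)) (hγ j)

/-- **Closing in the group** for elements commuting with the centraliser of `X`. -/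
theorem close_reg (hG : IsLie G g) (hK : Coc G Γ K) {X : A} (hloc : LocFin Γ X) (hab : Abel g X)
    {h : Aˣ} (hh : h ∈ G) (hX : X ∈ g) (hc : ∀ C ∈ cen g X, Commute (h : A) C) (η : ℝ) (hη : 0 < η) :
    ∃ s ∈ cen g X, ‖s‖ < η ∧ ∃ q : ℕ, 1 ≤ q ∧ (h * eu s) ^ q ∈ Γ := by
  obtain ⟨q, hq, E, hE, hγ⟩ := power hG hK hloc hab hh hX hc
  obtain ⟨D, hD⟩ := latt hG hK hloc hab
  obtain ⟨j, hj⟩ := exists_nat_gt (max D 0 / η + 1)
  have hj1 : (1 : ℝ) < j := by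
    have : 0 ≤ max D 0 / η := by positivity
    linarith
  have hj0 : (0 : ℝ) < j := by linarith
  have hjn : 1 ≤ j := by
    have : (0 : ℝ) < j := hj0
    exact_mod_cast Nat.cast_pos.1 this
  obtain ⟨l, hl, hlΓ, hlD⟩ := hD ((j : ℝ) • E) ((cen g X).smul_mem _ hE)
  have hq0 : (0 : ℝ) < q := by exact_mod_cast hq
  obtain ⟨s, hs⟩ : ∃ s : A, s = ((q * j : ℕ) : ℝ)⁻¹ • (l - (j : ℝ) • E) := ⟨_, rfl⟩
  have hqj : (0 : ℝ) < ((q * j : ℕ) : ℝ) := by push_cast; positivity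
  have hsc : s ∈ cen g X := by
    rw [hs]
    exact (cen g X).smul_mem _ ((cen g X).sub_mem hl ((cen g X).smul_mem _ hE))
  refine ⟨s, hsc, ?_, q * j, Nat.mul_pos hq hjn, ?_⟩
  · rw [hs, norm_smul, norm_inv, Real.norm_of_nonneg hqj.le, norm_sub_rev, ← div_eq_inv_mul,
      div_lt_iff₀ hqj]
    have h1 : ‖(j : ℝ) • E - l‖ ≤ max D 0 := hlD.trans (le_max_left _ _)
    have h2 : max D 0 < η * j := by
      have h3 : max D 0 / η < j := by linarith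
      rw [div_lt_iff₀ hη] at h3
      linarith
    have h3 : η * j ≤ η * ((q * j : ℕ) : ℝ) := by
      apply mul_le_mul_of_nonneg_left _ hη.le
      push_cast
      have : (1 : ℝ) ≤ q := by exact_mod_cast hq
      nlinarith
    linarith
  · obtain ⟨γ, hγe⟩ : ∃ γ, γ = (eu E)⁻¹ * h ^ q := ⟨_, rfl⟩
    rw [← hγe] at hγ
    have hcs : Commute h (eu s) := Units.ext (comm_eu (hc s hsc)).eq
    have hcE : Commute h (eu E) := Units.ext (comm_eu (hc E hE)).eq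
    have hcγ : Commute (eu E) γ := by
      rw [hγe]
      exact ((Commute.refl _).inv_right).mul_right (hcE.symm.pow_right q)
    have h1 : h ^ q = eu E * γ := by rw [hγe, mul_inv_cancel_left]
    have h2 : eu s ^ (q * j) = eu (l - (j : ℝ) • E) := by
      rw [← eu_nsmul, hs, smul_smul, mul_inv_cancel₀ hqj.ne', one_smul]
    have h3 : eu (l - (j : ℝ) • E) = (eu E ^ j)⁻¹ * eu l := by
      have c1 : Commute (-((j : ℝ) • E)) l := ((hab _ hE _ hl).smul_left _).neg_left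
      rw [sub_eq_neg_add, eu_add c1, eu_neg, eu_nsmul]
    rw [hcs.mul_pow, h2, h3, pow_mul, h1, hcγ.mul_pow]
    have h4 : eu E ^ j * γ ^ j * ((eu E ^ j)⁻¹ * eu l) = γ ^ j * eu l := by
      have := (hcγ.pow_pow j j).eq
      rw [this]
      group
    rw [h4]
    exact Γ.mul_mem (Γ.pow_mem hγ j) hlΓ

end latt

end Run7.h619.HG
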