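import Pool.Agent.Run7.h619.HG.Exp

/-!
# Connected linear Lie groups and their Lie algebras
-/

set_option autoImplicit false

open scoped Topology
open Filter Set Metric NormedSpace

namespace Run7.h619.HG

variable {A : Type*} [NormedRing A] [NormedAlgebra ℝ A] [CompleteSpace A]

/-- `G` is a connected linear Lie group with the Lie algebra `g`: it contains the exponentials of the
elements of `g`, all elements of `G` close to `1` are exponentials of small elements of `g`, and `G` is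
generated by the exponentials of the elements of `g`. -/
structure IsLie (G : Subgroup Aˣ) (g : Submodule ℝ A) : Prop where
  exp_mem : ∀ W ∈ g, eu W ∈ G
  log : ∀ ε : ℝ, 0 < ε → ∃ δ : ℝ, 0 < δ ∧ ∀ u ∈ G, ‖(u : A) - 1‖ < δ → ∃ W ∈ g, ‖W‖ < ε ∧ u = eu W
  conn : ∀ u ∈ G, ∃ L : List A, (∀ W ∈ L, W ∈ g) ∧ u = (L.map eu).prod

/-- the commutator -/
def br (x y : A) : A := x * y - y * x

omit [NormedAlgebra ℝ A] [CompleteSpace A] in
theorem br_eq_zero {x y : A} : br x y = 0 ↔ Commute x y := by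
  unfold br
  rw [sub_eq_zero]
  rfl

section

variable {G : Subgroup Aˣ} {g : Submodule ℝ A}

theorem ad_mem (hG : IsLie G g) {u : Aˣ} (hu : u ∈ G) {W : A} (hW : W ∈ g) :
    (u : A) * W * ((u⁻¹ : Aˣ) : A) ∈ g := by
  obtain ⟨ρ, hρ, hinj⟩ := exp_inj A
  obtain ⟨δ, hδ, hlog⟩ := hG.log ρ hρ
  obtain ⟨Z, hZ⟩ : ∃ Z : A, Z = (u : A) * W * ((u⁻¹ : Aˣ) : A) := ⟨_, rfl⟩
  rw [← hZ]
  have e : ∀ t : ℝ, eu (t • Z) = u * eu (t • W) * u⁻¹ := by
    intro t
    rw [← eu_conj, hZ]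
    congr 1
    rw [mul_smul_comm, smul_mul_assoc]
  have hc : Continuous fun t : ℝ => t • Z := continuous_id.smul continuous_const
  have h1 : ∀ᶠ t : ℝ in 𝓝 0, ‖t • Z‖ < ρ := by
    have := (hc.norm).tendsto 0
    simp only [zero_smul, norm_zero] at this
    exact this.eventually (gt_mem_nhds hρ)
  have h2 : ∀ᶠ t : ℝ in 𝓝 0, ‖((eu (t • Z) : Aˣ) : A) - 1‖ < δ := by
    have h3 : Continuous fun t : ℝ => ‖((eu (t • Z) : Aˣ) : A) - 1‖ :=
      ((exp_cont.comp hc).sub continuous_const).norm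
    have := h3.tendsto 0
    simp only [zero_smul, eu_zero, Units.val_one, sub_self, norm_zero] at this
    exact this.eventually (gt_mem_nhds hδ)
  have h3 : ∀ᶠ t : ℝ in 𝓝[≠] 0, ‖t • Z‖ < ρ ∧ ‖((eu (t • Z) : Aˣ) : A) - 1‖ < δ :=
    (h1.and h2).filter_mono nhdsWithin_le_nhds
  obtain ⟨t, ⟨ht1, ht2⟩, ht0⟩ := (h3.and self_mem_nhdsWithin).exists
  have ht0' : t ≠ 0 := ht0
  have hmem : eu (t • Z) ∈ G := by
    rw [e]
    exact G.mul_mem (G.mul_mem hu (hG.exp_mem _ (g.smul_mem _ hW))) (G.inv_mem hu)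
  obtain ⟨W', hW', hn, he⟩ := hlog _ hmem ht2
  have h4 : t • Z = W' := hinj _ _ ht1 hn (by
    have := congrArg (fun v : Aˣ => (v : A)) he
    simpa using this)
  have h5 : Z = t⁻¹ • (t • Z) := by rw [smul_smul, inv_mul_cancel₀ ht0', one_smul]
  rw [h5, h4]
  exact g.smul_mem _ hW'

theorem ad_mem' (hG : IsLie G g) {u : Aˣ} (hu : u ∈ G) {W : A} (hW : W ∈ g) :
    ((u⁻¹ : Aˣ) : A) * W * (u : A) ∈ g := by
  have := ad_mem hG (G.inv_mem hu) hW
  rwa [inv_inv] at this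

/-- the derivative of `(C, U) ↦ exp U * C * exp (-U)` at `(Y, 0)` -/
theorem conj_deriv (Y : A) : HasStrictFDerivAt (fun q : A × A => exp q.2 * q.1 * exp (-q.2))
    (((ContinuousLinearMap.fst ℝ A A) +
      ((ContinuousLinearMap.mul ℝ A).flip Y).comp (ContinuousLinearMap.snd ℝ A A)) -
      ((ContinuousLinearMap.mul ℝ A Y)).comp (ContinuousLinearMap.snd ℝ A A)) (Y, 0) := by
  have he : HasStrictFDerivAt (exp : A → A) (1 : A →L[ℝ] A) 0 := hasStrictFDerivAt_exp_zero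
  have h1 : HasStrictFDerivAt (fun q : A × A => exp q.2)
      ((1 : A →L[ℝ] A).comp (ContinuousLinearMap.snd ℝ A A)) (Y, 0) :=
    HasStrictFDerivAt.comp (g := exp) (f := fun q : A × A => q.2) (Y, (0 : A)) he
      hasStrictFDerivAt_snd
  have he' : HasStrictFDerivAt (exp : A → A) (1 : A →L[ℝ] A) (-(0 : A)) := by
    rw [neg_zero]
    exact he
  have h2 : HasStrictFDerivAt (fun q : A × A => exp (-q.2))
      ((1 : A →L[ℝ] A).comp (-(ContinuousLinearMap.snd ℝ A A))) (Y, 0) :=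
    HasStrictFDerivAt.comp (g := exp) (f := fun q : A × A => -q.2) (Y, (0 : A)) he'
      hasStrictFDerivAt_snd.neg
  have h3 : HasStrictFDerivAt (fun q : A × A => q.1) (ContinuousLinearMap.fst ℝ A A) (Y, (0 : A)) :=
    hasStrictFDerivAt_fst
  have h4 := (h1.mul' h3).mul' h2
  refine h4.congr_fderiv ?_
  refine ContinuousLinearMap.ext fun q => ?_
  show (exp (0 : A) * Y) * (-q.2) + (exp (0 : A) * q.1 + q.2 * Y) * exp (-(0 : A)) =
    (q.1 + q.2 * Y) - Y * q.2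
  rw [neg_zero, exp_zero, one_mul, one_mul, mul_one, mul_neg]
  abel

variable [FiniteDimensional ℝ A]

theorem br_mem (hG : IsLie G g) {U W : A} (hU : U ∈ g) (hW : W ∈ g) : br U W ∈ g := by
  have h1 : HasDerivAt (fun t : ℝ => exp (t • U) * W * exp (-(t • U))) (br U W) 0 := by
    have h2 : HasDerivAt (fun t : ℝ => ((W, t • U) : A × A)) ((0, U) : A × A) 0 := by
      have h3 : HasDerivAt (fun t : ℝ => t • U) ((1 : ℝ) • U) 0 := (hasDerivAt_id (0 : ℝ)).smul_const U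
      rw [one_smul] at h3
      exact (hasDerivAt_const (0 : ℝ) W).prodMk h3
    have h4 := (conj_deriv W).hasFDerivAt
    have h5 : ((W, (0 : ℝ) • U) : A × A) = (W, 0) := by rw [zero_smul]
    rw [← h5] at h4
    have h6 := h4.comp_hasDerivAt (0 : ℝ) h2
    refine h6.congr_deriv ?_
    show (0 + U * W) - W * U = br U W
    unfold br
    rw [zero_add]
  have h7 := h1.tendsto_slope_zero
  refine (Submodule.closed_of_finiteDimensional g).mem_of_tendsto h7 (Eventually.of_forall fun t => ?_)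
  refine g.smul_mem _ (g.sub_mem ?_ ?_)
  · have h8 := ad_mem hG (hG.exp_mem _ (g.smul_mem (0 + t) hU)) hW
    exact h8
  · rw [zero_smul, neg_zero, exp_zero, one_mul, mul_one]
    exact hW

/-- the centraliser of `Y` in `g` -/
def cen (g : Submodule ℝ A) (Y : A) : Submodule ℝ A where
  carrier := {C | C ∈ g ∧ Commute Y C}
  add_mem' := fun h1 h2 => ⟨g.add_mem h1.1 h2.1, h1.2.add_right h2.2⟩
  zero_mem' := ⟨g.zero_mem, Commute.zero_right _⟩
  smul_mem' := fun c _ h => ⟨g.smul_mem c h.1, h.2.smul_right c⟩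

/-- `ad Y` is semisimple at `0`: its kernel in `g` is its generalised kernel -/
def SS (g : Submodule ℝ A) (Y : A) : Prop := ∀ U ∈ g, Commute Y (br Y U) → Commute Y U

theorem br_lin (Y : A) : ∃ f : A →ₗ[ℝ] A, ∀ U, f U = br Y U := by
  refine ⟨{ toFun := br Y, map_add' := fun a b => ?_, map_smul' := fun c a => ?_ }, fun U => rfl⟩
  · unfold br
    rw [mul_add, add_mul]
    abel
  · unfold br
    rw [RingHom.id_apply, mul_smul_comm, smul_mul_assoc, smul_sub]

theorem decomp {Y : A} (hlie : ∀ U ∈ g, br Y U ∈ g) (hss : SS g Y) {Z : A} (hZ : Z ∈ g) :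
    ∃ C ∈ cen g Y, ∃ U ∈ g, Z = C + br Y U := by
  obtain ⟨f, hf⟩ := br_lin Y
  have hfg : ∀ x ∈ g, f x ∈ g := fun x hx => by rw [hf]; exact hlie x hx
  let f' : g →ₗ[ℝ] g := f.restrict hfg
  have hf' : ∀ x : g, ((f' x : g) : A) = br Y x := fun x => hf x
  have hdis : Disjoint (LinearMap.ker f') (LinearMap.range f') := by
    rw [Submodule.disjoint_def]
    rintro x hx ⟨y, hy⟩
    have h1 : br Y (x : A) = 0 := by
      rw [← hf', LinearMap.mem_ker.1 hx]
      rfl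
    have h2 : (x : A) = br Y y := by rw [← hy, hf']
    rw [br_eq_zero, h2] at h1
    have h3 := hss _ y.2 h1
    rw [← br_eq_zero] at h3
    rw [h3] at h2
    exact Subtype.ext h2
  have htop := Submodule.eq_top_of_disjoint _ _ (by
    rw [add_comm, LinearMap.finrank_range_add_finrank_ker f']) hdis
  have hZ' : (⟨Z, hZ⟩ : g) ∈ LinearMap.ker f' ⊔ LinearMap.range f' := by
    rw [htop]
    exact Submodule.mem_top
  obtain ⟨C, hC, D, ⟨U, hU⟩, hCD⟩ := Submodule.mem_sup.1 hZ'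
  refine ⟨C, ⟨C.2, ?_⟩, U, U.2, ?_⟩
  · rw [← br_eq_zero, ← hf', LinearMap.mem_ker.1 hC]
    rfl
  · have h1 := congrArg (fun x : g => (x : A)) hCD
    simp only [Submodule.coe_add] at h1
    rw [← h1, ← hU, hf']

/-- All elements of `g` close to `Y` are conjugate to elements of the centraliser of `Y`. -/
theorem conj_onto (hG : IsLie G g) {Y : A} (hY : Y ∈ g) (hss : SS g Y) (ε : ℝ) (hε : 0 < ε) :
    ∃ δ : ℝ, 0 < δ ∧ ∀ X ∈ g, ‖X - Y‖ < δ → ∃ U ∈ g, ∃ C ∈ cen g Y, ‖U‖ < ε ∧ ‖C - Y‖ < ε ∧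
      X = exp U * C * exp (-U) := by
  -- a projection to `g`
  obtain ⟨p₀, hp₀⟩ := LinearMap.exists_leftInverse_of_injective g.subtype g.ker_subtype
  let p : A →L[ℝ] g := LinearMap.toContinuousLinearMap p₀
  have hp : ∀ (x : A) (hx : x ∈ g), p x = ⟨x, hx⟩ := by
    intro x hx
    have := LinearMap.congr_fun hp₀ ⟨x, hx⟩
    exact this
  obtain ⟨c, hc⟩ : ∃ c, c = cen g Y := ⟨_, rfl⟩
  have hYc : Y ∈ c := by rw [hc]; exact ⟨hY, Commute.refl Y⟩
  have hcg : ∀ x ∈ c, x ∈ g ∧ Commute Y x := fun x hx => by rw [hc] at hx; exact hx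
  let ι : c × g →L[ℝ] A × A := c.subtypeL.prodMap g.subtypeL
  let D : A × A →L[ℝ] A := ((ContinuousLinearMap.fst ℝ A A) +
      ((ContinuousLinearMap.mul ℝ A).flip Y).comp (ContinuousLinearMap.snd ℝ A A)) -
      ((ContinuousLinearMap.mul ℝ A Y)).comp (ContinuousLinearMap.snd ℝ A A)
  let f : c × g → g := fun q => p (exp (q.2 : A) * (q.1 : A) * exp (-(q.2 : A)))
  let a : c × g := (⟨Y, hYc⟩, 0)
  have hf : HasStrictFDerivAt f (p.comp (D.comp ι)) a := by
    have h1 : HasStrictFDerivAt (fun q : A × A => exp q.2 * q.1 * exp (-q.2)) D (ι a) :=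
      conj_deriv Y
    have h2 : HasStrictFDerivAt ι ι a := ι.hasStrictFDerivAt
    have h3 := h1.comp a h2
    exact p.hasStrictFDerivAt.comp a h3
  have hval : ∀ q : c × g, exp (q.2 : A) * (q.1 : A) * exp (-(q.2 : A)) ∈ g := by
    intro q
    exact ad_mem hG (hG.exp_mem _ q.2.2) (hcg _ q.1.2).1
  have hfv : ∀ q : c × g, ((f q : g) : A) = exp (q.2 : A) * (q.1 : A) * exp (-(q.2 : A)) := by
    intro q
    show ((p _ : g) : A) = _
    rw [hp _ (hval q)]
  have hsurj : LinearMap.range (p.comp (D.comp ι) : c × g →L[ℝ] g).toLinearMap = ⊤ := by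
    rw [LinearMap.range_eq_top]
    rintro ⟨Z, hZ⟩
    obtain ⟨C, hC, U, hU, hCU⟩ := decomp (fun U hU => br_mem hG hY hU) hss hZ
    rw [← hc] at hC
    refine ⟨(⟨C, hC⟩, ⟨-U, g.neg_mem hU⟩), ?_⟩
    show p ((C + (-U) * Y) - Y * (-U)) = _
    have h1 : (C + (-U) * Y) - Y * (-U) = Z := by
      rw [hCU]
      unfold br
      rw [neg_mul, mul_neg]
      abel
    rw [h1, hp _ hZ]
  have hmap := hf.map_nhds_eq_of_surj hsurj
  have hfa : f a = ⟨Y, hY⟩ := by
    apply Subtype.ext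
    rw [hfv]
    show exp (0 : A) * Y * exp (-(0 : A)) = Y
    rw [neg_zero, exp_zero, one_mul, mul_one]
  have hnb : {q : c × g | ‖(q.2 : A)‖ < ε ∧ ‖(q.1 : A) - Y‖ < ε} ∈ 𝓝 a := by
    have h1 : Continuous fun q : c × g => ‖(q.2 : A)‖ := by fun_prop
    have h2 : Continuous fun q : c × g => ‖(q.1 : A) - Y‖ := by fun_prop
    have h3 : ∀ᶠ q in 𝓝 a, ‖((q : c × g).2 : A)‖ < ε := by
      have := h1.tendsto a
      have e : ‖((a : c × g).2 : A)‖ = 0 := by
        show ‖((0 : g) : A)‖ = 0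
        rw [Submodule.coe_zero, norm_zero]
      rw [e] at this
      exact this.eventually (gt_mem_nhds hε)
    have h4 : ∀ᶠ q in 𝓝 a, ‖((q : c × g).1 : A) - Y‖ < ε := by
      have := h2.tendsto a
      have e : ‖((a : c × g).1 : A) - Y‖ = 0 := by
        show ‖Y - Y‖ = 0
        rw [sub_self, norm_zero]
      rw [e] at this
      exact this.eventually (gt_mem_nhds hε)
    exact h3.and h4
  have him : f '' {q : c × g | ‖(q.2 : A)‖ < ε ∧ ‖(q.1 : A) - Y‖ < ε} ∈ 𝓝 (⟨Y, hY⟩ : g) := by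
    rw [← hfa, ← hmap]
    exact image_mem_map hnb
  obtain ⟨δ, hδ, hb⟩ := Metric.mem_nhds_iff.1 him
  refine ⟨δ, hδ, fun X hX hXY => ?_⟩
  obtain ⟨q, ⟨hq1, hq2⟩, hq⟩ := hb (show (⟨X, hX⟩ : g) ∈ ball (⟨Y, hY⟩ : g) δ by
    rw [mem_ball, dist_eq_norm]
    exact hXY)
  refine ⟨q.2, q.2.2, q.1, by rw [← hc]; exact q.1.2, hq1, hq2, ?_⟩
  rw [← hfv, hq]

end

end Run7.h619.HG
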