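import Pool.Agent.Run7.h619.HG.Latt

/-!
# Regular elements of a connected linear Lie group are dense along products of exponentials
-/

set_option autoImplicit false
set_option linter.unusedSectionVars false

open scoped Topology
open Filter Set Metric NormedSpace

namespace Run7.h619.HG

variable {A : Type*} [NormedRing A] [NormedAlgebra ℝ A] [CompleteSpace A] [FiniteDimensional ℝ A]
  {G : Subgroup Aˣ} {g : Submodule ℝ A}

/-- analytic curves -/
def An {F : Type*} [NormedAddCommGroup F] [NormedSpace ℝ F] (f : ℝ → F) : Prop :=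
  ∀ t, AnalyticAt ℝ f t

/-- analytic curves of units -/
def AC (u : ℝ → Aˣ) : Prop := An (fun t => (u t : A)) ∧ An (fun t => (((u t)⁻¹ : Aˣ) : A))

theorem An.eq_one {F : Type*} [NormedAddCommGroup F] [NormedSpace ℝ F] {f : ℝ → F} (hf : An f)
    (h : ∀ᶠ t in 𝓝 (0 : ℝ), f t = 0) (t : ℝ) : f t = 0 := by
  have h1 : f = fun _ => 0 :=
    AnalyticOnNhd.eq_of_eventuallyEq (𝕜 := ℝ) (f := f) (g := fun _ => 0) (z₀ := 0)
      (fun t _ => hf t) (fun _ _ => analyticAt_const) h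
  rw [h1]

theorem An.frequently_ne {f : ℝ → ℝ} (hf : An f) {t : ℝ} (ht : f t ≠ 0) :
    ∃ᶠ s in 𝓝 (0 : ℝ), f s ≠ 0 := by
  intro h
  apply ht
  refine hf.eq_one (h.mono fun s hs => ?_) t
  simpa using hs

theorem an_exp {f : ℝ → A} (hf : An f) : An fun t => exp (f t) := by
  intro t
  have h1 : AnalyticAt ℝ (exp : A → A) (f t) := exp_analytic (f t)
  exact h1.comp (hf t)

theorem ac_eu {f : ℝ → A} (hf : An f) : AC fun t => eu (f t) :=
  ⟨an_exp hf, an_exp fun t => (hf t).neg⟩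

theorem AC.mul {u v : ℝ → Aˣ} (hu : AC u) (hv : AC v) : AC fun t => u t * v t := by
  constructor
  · intro t
    have := (hu.1 t).mul (hv.1 t)
    exact this
  · intro t
    have := (hv.2 t).mul (hu.2 t)
    have e : (fun t => (((u t * v t)⁻¹ : Aˣ) : A)) = fun t => (((v t)⁻¹ : Aˣ) : A) * (((u t)⁻¹ : Aˣ) : A) := by
      funext t
      rw [mul_inv_rev, Units.val_mul]
    rw [e]
    exact this

theorem AC.const (u : Aˣ) : AC fun _ => u := ⟨fun _ => analyticAt_const, fun _ => analyticAt_const⟩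

theorem an_smul (W : A) : An fun t : ℝ => t • W := by
  intro t
  exact analyticAt_id.smul analyticAt_const

theorem ac_list (L : List A) : AC fun t : ℝ => (L.map fun W => eu (t • W)).prod := by
  induction L with
  | nil =>
    simp only [List.map_nil, List.prod_nil]
    exact AC.const 1
  | cons W L ih =>
    simp only [List.map_cons, List.prod_cons]
    exact (ac_eu (an_smul W)).mul ih

/-! ### matrices with analytic entries -/

theorem an_det {ι : Type*} [Fintype ι] [DecidableEq ι] {N : ℝ → Matrix ι ι ℝ}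
    (h : ∀ i j, An fun t => N t i j) : An fun t => (N t).det := by
  intro t
  have e : (fun t => (N t).det) = fun t => ∑ σ : Equiv.Perm ι, (Equiv.Perm.sign σ : ℤ) • ∏ i, N t (σ i) i := by
    funext t
    rw [Matrix.det_apply]
    rfl
  rw [e]
  refine Finset.analyticAt_fun_sum _ fun σ _ => ?_
  have h1 : AnalyticAt ℝ (fun t => ∏ i, N t (σ i) i) t :=
    Finset.analyticAt_fun_prod _ fun i _ => h (σ i) i t
  have e2 : (fun t => (Equiv.Perm.sign σ : ℤ) • ∏ i, N t (σ i) i) =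
      fun t => (((Equiv.Perm.sign σ : ℤ) : ℝ)) * ∏ i, N t (σ i) i := by
    funext t
    rw [zsmul_eq_mul]
  rw [e2]
  exact analyticAt_const.mul h1

theorem an_adj {ι : Type*} [Fintype ι] [DecidableEq ι] {N : ℝ → Matrix ι ι ℝ}
    (h : ∀ i j, An fun t => N t i j) (i j : ι) : An fun t => (N t).adjugate i j := by
  have e : (fun t => (N t).adjugate i j) = fun t => ((N t).updateRow j (Pi.single i 1)).det := by
    funext t
    rw [Matrix.adjugate_apply]
  rw [e]
  refine an_det fun a b => ?_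
  by_cases hj : a = j
  · subst hj
    simp only [Matrix.updateRow_self]
    exact fun t => analyticAt_const
  · simp only [Matrix.updateRow_ne hj]
    exact h a b

/-- the basis of `A` -/
noncomputable abbrev bas (A : Type*) [NormedRing A] [NormedAlgebra ℝ A] [FiniteDimensional ℝ A] :=
  Module.finBasis ℝ A

/-- the adjugate endomorphism -/
noncomputable def adj (T : A →ₗ[ℝ] A) : A →ₗ[ℝ] A :=
  Matrix.toLin (bas A) (bas A) (LinearMap.toMatrix (bas A) (bas A) T).adjugate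

theorem mul_adj (T : A →ₗ[ℝ] A) (z : A) : T (adj T z) = LinearMap.det T • z := by
  have h1 : T ∘ₗ adj T = LinearMap.det T • LinearMap.id := by
    have h2 : T = Matrix.toLin (bas A) (bas A) (LinearMap.toMatrix (bas A) (bas A) T) :=
      (Matrix.toLin_toMatrix _ _ T).symm
    have h3 : Matrix.toLin (bas A) (bas A) (LinearMap.toMatrix (bas A) (bas A) T) ∘ₗ adj T =
        LinearMap.det T • LinearMap.id := by
      unfold adj
      rw [← Matrix.toLin_mul, Matrix.mul_adjugate, LinearMap.det_toMatrix, map_smul, Matrix.toLin_one]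
    rwa [← h2] at h3
  exact LinearMap.congr_fun h1 z

/-- families of endomorphisms, pointwise analytic -/
theorem an_mat {T : ℝ → A →ₗ[ℝ] A} (h : ∀ z, An fun t => T t z) (i j) :
    An fun t => LinearMap.toMatrix (bas A) (bas A) (T t) i j := by
  intro t
  let l : A →L[ℝ] ℝ := LinearMap.toContinuousLinearMap ((bas A).coord i)
  have h1 : (fun t => LinearMap.toMatrix (bas A) (bas A) (T t) i j) = fun t => l (T t (bas A j)) := by
    funext t
    rw [LinearMap.toMatrix_apply]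
    rfl
  rw [h1]
  exact (l.analyticAt _).comp (h _ t)

theorem an_detL {T : ℝ → A →ₗ[ℝ] A} (h : ∀ z, An fun t => T t z) : An fun t => LinearMap.det (T t) := by
  have e : (fun t => LinearMap.det (T t)) = fun t => (LinearMap.toMatrix (bas A) (bas A) (T t)).det := by
    funext t
    rw [LinearMap.det_toMatrix]
  rw [e]
  exact an_det fun i j => an_mat h i j

theorem an_adjL {T : ℝ → A →ₗ[ℝ] A} (h : ∀ z, An fun t => T t z) (z : A) :
    An fun t => adj (T t) z := by
  intro t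
  have e : (fun t => adj (T t) z) = fun t => ∑ j, (∑ i,
      (LinearMap.toMatrix (bas A) (bas A) (T t)).adjugate j i * (bas A).repr z i) • bas A j := by
    funext t
    unfold adj
    rw [Matrix.toLin_apply]
    rfl
  rw [e]
  refine Finset.analyticAt_fun_sum _ fun j _ => ?_
  have hcst : AnalyticAt ℝ (fun _ : ℝ => bas A j) t := analyticAt_const
  have h2 : AnalyticAt ℝ (fun t => ∑ i,
      (LinearMap.toMatrix (bas A) (bas A) (T t)).adjugate j i * (bas A).repr z i) t := by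
    refine Finset.analyticAt_fun_sum _ fun i _ => ?_
    have h1 : AnalyticAt ℝ
        (fun t => (LinearMap.toMatrix (bas A) (bas A) (T t)).adjugate j i) t :=
      an_adj (fun i j => an_mat h i j) j i t
    exact h1.mul analyticAt_const
  exact h2.smul hcst

theorem inj_of_det {T : A →ₗ[ℝ] A} (h : LinearMap.det T ≠ 0) {x y : A} (hxy : T x = T y) : x = y := by
  have h1 : IsUnit T := (LinearMap.isUnit_iff_isUnit_det T).2 (isUnit_iff_ne_zero.2 h)
  have h2 := (LinearMap.isUnit_iff_ker_eq_bot T).1 h1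
  exact LinearMap.ker_eq_bot.1 h2 hxy

theorem det_of_inj {T : A →ₗ[ℝ] A} (h : ∀ x, T x = 0 → x = 0) : LinearMap.det T ≠ 0 := by
  have h1 : IsUnit T := (LinearMap.isUnit_iff_ker_eq_bot T).2 (LinearMap.ker_eq_bot'.2 h)
  exact ((LinearMap.isUnit_iff_isUnit_det T).1 h1).ne_zero

/-! ### the projection -/

/-- a projection to `[Y, g]` which vanishes on the centraliser of `Y` -/
structure IsProj (g : Submodule ℝ A) (Y : A) (π : A →ₗ[ℝ] A) : Prop where
  range : ∀ x : A, ∃ y ∈ g, π x = br Y y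
  fix : ∀ y ∈ g, π (br Y y) = br Y y
  ker : ∀ x ∈ cen g Y, π x = 0

theorem br_cen_zero {Y : A} (hss : SS g Y) {y : A} (hy : y ∈ g) (h : Commute Y (br Y y)) :
    br Y y = 0 := br_eq_zero.2 (hss y hy h)

theorem exists_proj {Y : A} (hss : SS g Y) : ∃ π : A →ₗ[ℝ] A, IsProj g Y π := by
  obtain ⟨f, hf⟩ := br_lin Y
  let n : Submodule ℝ A := g.map f
  have hn : ∀ x ∈ n, ∃ U ∈ g, x = br Y U := by
    rintro x ⟨U, hU, rfl⟩
    exact ⟨U, hU, hf U⟩
  have hdis : Disjoint (cen g Y) n := by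
    rw [Submodule.disjoint_def]
    intro x hx hxn
    obtain ⟨U, hU, hxU⟩ := hn x hxn
    rw [hxU]
    apply br_cen_zero hss hU
    rw [← hxU]
    exact hx.2
  obtain ⟨q, hq, hqn⟩ := hdis.exists_isCompl
  have hc : IsCompl n q := hqn.symm
  refine ⟨n.subtype ∘ₗ Submodule.projectionOnto n q hc, ?_, ?_, ?_⟩
  · intro x
    exact hn _ (Submodule.projectionOnto n q hc x).2
  · intro y hy
    have h1 : br Y y ∈ n := ⟨y, hy, hf y⟩
    have h2 := Submodule.projectionOnto_apply_left hc (⟨br Y y, h1⟩ : n)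
    show ((Submodule.projectionOnto n q hc (br Y y) : n) : A) = br Y y
    rw [h2]
  · intro x hx
    have h1 : x ∈ q := hq hx
    have h2 := Submodule.projectionOnto_apply_right hc (⟨x, h1⟩ : q)
    show ((Submodule.projectionOnto n q hc x : n) : A) = 0
    rw [h2]
    rfl

section

variable {Y : A} {π : A →ₗ[ℝ] A}

theorem IsProj.idem (hπ : IsProj g Y π) (x : A) : π (π x) = π x := by
  obtain ⟨y, hy, h⟩ := hπ.range x
  rw [h, hπ.fix y hy]

theorem IsProj.compl (hG : IsLie G g) (hY : Y ∈ g) (hss : SS g Y) (hπ : IsProj g Y π) {x : A}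
    (hx : x ∈ g) : x - π x ∈ cen g Y := by
  obtain ⟨C, hC, U, hU, h⟩ := decomp (fun U hU => br_mem hG hY hU) hss hx
  have : x - π x = C := by
    rw [h, map_add, hπ.ker C hC, hπ.fix U hU]
    abel
  rw [this]
  exact hC

theorem IsProj.mem (hG : IsLie G g) (hY : Y ∈ g) (hπ : IsProj g Y π) (x : A) : π x ∈ g := by
  obtain ⟨y, hy, h⟩ := hπ.range x
  rw [h]
  exact br_mem hG hY hy

/-- `π (u x u⁻¹ - x) + (x - π x)` -/
noncomputable def TT (π : A →ₗ[ℝ] A) (u : Aˣ) : A →ₗ[ℝ] A where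
  toFun x := π ((u : A) * x * ((u⁻¹ : Aˣ) : A) - x) + (x - π x)
  map_add' x y := by
    rw [mul_add, add_mul]
    have e : (u : A) * x * ((u⁻¹ : Aˣ) : A) + (u : A) * y * ((u⁻¹ : Aˣ) : A) - (x + y) =
      ((u : A) * x * ((u⁻¹ : Aˣ) : A) - x) + ((u : A) * y * ((u⁻¹ : Aˣ) : A) - y) := by abel
    rw [e, map_add, map_add]
    abel
  map_smul' c x := by
    rw [RingHom.id_apply, mul_smul_comm, smul_mul_assoc, ← smul_sub, map_smul, map_smul, ← smul_sub,
      ← smul_add]

/-- `π [Z, [Z, x]] + (x - π x)` -/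
noncomputable def TS (π : A →ₗ[ℝ] A) (Z : A) : A →ₗ[ℝ] A where
  toFun x := π (br Z (br Z x)) + (x - π x)
  map_add' x y := by
    have e : br Z (br Z (x + y)) = br Z (br Z x) + br Z (br Z y) := by
      unfold br
      noncomm_ring
    rw [e, map_add, map_add]
    abel
  map_smul' c x := by
    have e : br Z (br Z (c • x)) = c • br Z (br Z x) := by
      unfold br
      simp only [mul_smul_comm, smul_mul_assoc, ← smul_sub]
    rw [RingHom.id_apply, e, map_smul, map_smul, ← smul_sub, ← smul_add]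

theorem TT_apply (π : A →ₗ[ℝ] A) (u : Aˣ) (x : A) :
    TT π u x = π ((u : A) * x * ((u⁻¹ : Aˣ) : A) - x) + (x - π x) := rfl

theorem TS_apply (π : A →ₗ[ℝ] A) (Z x : A) : TS π Z x = π (br Z (br Z x)) + (x - π x) := rfl

theorem an_TT (π : A →ₗ[ℝ] A) {u : ℝ → Aˣ} (hu : AC u) (z : A) : An fun t => TT π (u t) z := by
  intro t
  let π' : A →L[ℝ] A := LinearMap.toContinuousLinearMap π
  have e : (fun t => TT π (u t) z) =
      fun t => π' ((u t : A) * z * (((u t)⁻¹ : Aˣ) : A) - z) + (z - π z) := rfl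
  rw [e]
  have h1 : AnalyticAt ℝ (fun t => (u t : A) * z * (((u t)⁻¹ : Aˣ) : A) - z) t :=
    (((hu.1 t).mul analyticAt_const).mul (hu.2 t)).sub analyticAt_const
  exact ((π'.analyticAt _).comp h1).add analyticAt_const

theorem an_TS (π : A →ₗ[ℝ] A) {Z : ℝ → A} (hZ : An Z) (z : A) : An fun t => TS π (Z t) z := by
  intro t
  let π' : A →L[ℝ] A := LinearMap.toContinuousLinearMap π
  have e : (fun t => TS π (Z t) z) = fun t => π' (br (Z t) (br (Z t) z)) + (z - π z) := rfl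
  rw [e]
  have hb : ∀ {f : ℝ → A}, AnalyticAt ℝ f t → AnalyticAt ℝ (fun t => br (Z t) (f t)) t := by
    intro f hf
    unfold br
    exact ((hZ t).mul hf).sub (hf.mul (hZ t))
  exact ((π'.analyticAt _).comp (hb (hb analyticAt_const))).add analyticAt_const

/-- the kernel vectors -/
noncomputable def KK (π : A →ₗ[ℝ] A) (u : Aˣ) : A →ₗ[ℝ] A := adj (TT π u)

theorem an_KK (π : A →ₗ[ℝ] A) {u : ℝ → Aˣ} (hu : AC u) (z : A) : An fun t => KK π (u t) z :=
  an_adjL (fun z => an_TT π hu z) z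

theorem KK_spec (π : A →ₗ[ℝ] A) (u : Aˣ) (z : A) :
    TT π u (KK π u z) = LinearMap.det (TT π u) • z := mul_adj _ z

/-- an injective endomorphism of the centraliser, given pointwise -/
theorem surj_cen (c : Submodule ℝ A) (f : A →ₗ[ℝ] A) (hf : ∀ x ∈ c, f x ∈ c)
    (hinj : ∀ x ∈ c, f x = 0 → x = 0) : ∀ z ∈ c, ∃ x ∈ c, f x = z := by
  let f' : c →ₗ[ℝ] c := f.restrict hf
  have h1 : Function.Injective f' := by
    rw [← LinearMap.ker_eq_bot, LinearMap.ker_eq_bot']
    intro x hx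
    apply Subtype.ext
    apply hinj x x.2
    have := congrArg (fun y : c => (y : A)) hx
    exact this
  have h2 := LinearMap.injective_iff_surjective.1 h1
  intro z hz
  obtain ⟨x, hx⟩ := h2 ⟨z, hz⟩
  refine ⟨x, x.2, ?_⟩
  have := congrArg (fun y : c => (y : A)) hx
  exact this

theorem unit_conj_comm {k : Aˣ} {x y : A} (h : Commute x y) :
    Commute ((k : A) * x * ((k⁻¹ : Aˣ) : A)) ((k : A) * y * ((k⁻¹ : Aˣ) : A)) := by
  have h1 : ∀ x y : A, (k : A) * x * ((k⁻¹ : Aˣ) : A) * ((k : A) * y * ((k⁻¹ : Aˣ) : A)) =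
      (k : A) * (x * y) * ((k⁻¹ : Aˣ) : A) := by
    intro x y
    calc (k : A) * x * ((k⁻¹ : Aˣ) : A) * ((k : A) * y * ((k⁻¹ : Aˣ) : A)) =
          (k : A) * x * (((k⁻¹ : Aˣ) : A) * (k : A)) * y * ((k⁻¹ : Aˣ) : A) := by
          simp only [mul_assoc]
      _ = (k : A) * (x * y) * ((k⁻¹ : Aˣ) : A) := by
          rw [Units.inv_mul, mul_one]; simp only [mul_assoc]
  show (k : A) * x * ((k⁻¹ : Aˣ) : A) * ((k : A) * y * ((k⁻¹ : Aˣ) : A)) =
    (k : A) * y * ((k⁻¹ : Aˣ) : A) * ((k : A) * x * ((k⁻¹ : Aˣ) : A))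
  rw [h1, h1, h.eq]

/-- The kernel vectors near `exp Y`. -/
theorem near (hG : IsLie G g) (hY : Y ∈ g) (hss : SS g Y) (hab : Abel g Y) (hπ : IsProj g Y π)
    {k : Aˣ} (hk : k ∈ G) {C : A} (hC : C ∈ cen g Y) {u : Aˣ} (hu : u = k * eu C * k⁻¹)
    (hdet : LinearMap.det (TT π u) ≠ 0) (z : A) (hz : z ∈ cen g Y) :
    ∃ y ∈ cen g Y, KK π u z = (k : A) * y * ((k⁻¹ : Aˣ) : A) := by
  have hcomm : ∀ y ∈ cen g Y, (u : A) * ((k : A) * y * ((k⁻¹ : Aˣ) : A)) * ((u⁻¹ : Aˣ) : A) =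
      (k : A) * y * ((k⁻¹ : Aˣ) : A) := by
    intro y hy
    have h1 : Commute ((eu C : Aˣ) : A) y := (comm_eu (hab y hy C hC)).symm
    have h2 := unit_conj_comm (k := k) h1
    have h3 : (u : A) = (k : A) * ((eu C : Aˣ) : A) * ((k⁻¹ : Aˣ) : A) := by
      rw [hu, Units.val_mul, Units.val_mul]
    rw [← h3] at h2
    rw [h2.eq, mul_assoc, Units.mul_inv, mul_one]
  -- conjugation by `k` as a linear map
  let c : A →ₗ[ℝ] A :=
    { toFun := fun y => (k : A) * y * ((k⁻¹ : Aˣ) : A)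
      map_add' := fun x y => by rw [mul_add, add_mul]
      map_smul' := fun a x => by rw [RingHom.id_apply, mul_smul_comm, smul_mul_assoc] }
  have hc : ∀ y, c y = (k : A) * y * ((k⁻¹ : Aˣ) : A) := fun _ => rfl
  have hTc : ∀ y ∈ cen g Y, TT π u (c y) ∈ cen g Y := by
    intro y hy
    rw [TT_apply, hc, hcomm y hy, sub_self, map_zero, zero_add]
    exact hπ.compl hG hY hss (ad_mem hG hk hy.1)
  have hinj : ∀ y ∈ cen g Y, (TT π u ∘ₗ c) y = 0 → y = 0 := by
    intro y _ h0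
    have h1 : TT π u (c y) = TT π u 0 := by
      rw [map_zero]
      exact h0
    have h2 := inj_of_det hdet h1
    rw [hc] at h2
    calc y = ((k⁻¹ : Aˣ) : A) * ((k : A) * y * ((k⁻¹ : Aˣ) : A)) * (k : A) := by
          simp only [mul_assoc, Units.inv_mul_cancel_left, Units.inv_mul, mul_one]
      _ = 0 := by rw [h2, mul_zero, zero_mul]
  obtain ⟨y, hy, hyz⟩ := surj_cen (cen g Y) (TT π u ∘ₗ c) hTc hinj _
    ((cen g Y).smul_mem (LinearMap.det (TT π u)) hz)
  refine ⟨y, hy, ?_⟩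
  apply inj_of_det hdet
  rw [KK_spec]
  exact hyz.symm

/-- the two identities -/
def Ident (g : Submodule ℝ A) (Y : A) (π : A →ₗ[ℝ] A) (u : Aˣ) : Prop :=
  (∀ z ∈ cen g Y, br (u : A) (KK π u z) = 0) ∧
    ∀ z ∈ cen g Y, ∀ z' ∈ cen g Y, br (KK π u z) (KK π u z') = 0

theorem ident_curve {u : ℝ → Aˣ} (hu : AC u) (h : ∀ᶠ t in 𝓝 (0 : ℝ), Ident g Y π (u t)) (t : ℝ) :
    Ident g Y π (u t) := by
  have hb : ∀ {f f' : ℝ → A}, An f → An f' → An fun t => br (f t) (f' t) := by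
    intro f f' hf hf' t
    unfold br
    exact ((hf t).mul (hf' t)).sub ((hf' t).mul (hf t))
  constructor
  · intro z hz
    exact (hb hu.1 (an_KK π hu z)).eq_one (h.mono fun s hs => hs.1 z hz) t
  · intro z hz z' hz'
    exact (hb (an_KK π hu z) (an_KK π hu z')).eq_one (h.mono fun s hs => hs.2 z hz z' hz') t

/-- determinant at `exp Y` -/
theorem det_exp (hG : IsLie G g) (hY : Y ∈ g) (hss : SS g Y) (hπ : IsProj g Y π)
    {ρ : ℝ} (hcomm : ∀ E X : A, ‖E‖ < ρ → Commute X (exp E) → Commute X E) (hYρ : ‖Y‖ < ρ) :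
    LinearMap.det (TT π (eu Y)) ≠ 0 := by
  apply det_of_inj
  intro x hx
  rw [TT_apply] at hx
  obtain ⟨y₁, hy₁, h1⟩ := hπ.range (((eu Y : Aˣ) : A) * x * (((eu Y)⁻¹ : Aˣ) : A) - x)
  have h2 : π (x - π x) = 0 := by rw [map_sub, hπ.idem, sub_self]
  have h3 : π ((((eu Y : Aˣ) : A) * x * (((eu Y)⁻¹ : Aˣ) : A)) - x) = 0 := by
    have := congrArg π hx
    rw [map_add, hπ.idem, h2, add_zero, map_zero] at this
    exact this
  rw [h3, zero_add, sub_eq_zero] at hx
  obtain ⟨y, hy, hxy⟩ := hπ.range x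
  rw [← hx] at hxy
  have hcY : Commute Y ((eu Y : Aˣ) : A) := comm_eu (Commute.refl Y)
  have hcY' : Commute Y (((eu Y)⁻¹ : Aˣ) : A) := by
    rw [eu_inv_val]
    exact (Commute.refl Y).neg_right.exp_right
  have h4 : ((eu Y : Aˣ) : A) * x * (((eu Y)⁻¹ : Aˣ) : A) - x =
      br Y (((eu Y : Aˣ) : A) * y * (((eu Y)⁻¹ : Aˣ) : A) - y) := by
    rw [hxy]
    unfold br
    have e1 : ((eu Y : Aˣ) : A) * (Y * y - y * Y) * (((eu Y)⁻¹ : Aˣ) : A) =
        Y * (((eu Y : Aˣ) : A) * y * (((eu Y)⁻¹ : Aˣ) : A)) -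
          (((eu Y : Aˣ) : A) * y * (((eu Y)⁻¹ : Aˣ) : A)) * Y := by
      calc ((eu Y : Aˣ) : A) * (Y * y - y * Y) * (((eu Y)⁻¹ : Aˣ) : A) =
            (((eu Y : Aˣ) : A) * Y) * y * (((eu Y)⁻¹ : Aˣ) : A) -
              ((eu Y : Aˣ) : A) * y * (Y * (((eu Y)⁻¹ : Aˣ) : A)) := by noncomm_ring
        _ = _ := by rw [hcY.eq.symm, hcY'.eq]; simp only [mul_assoc]
    rw [e1]
    noncomm_ring
  have h5 : ((eu Y : Aˣ) : A) * y * (((eu Y)⁻¹ : Aˣ) : A) - y ∈ g :=
    g.sub_mem (ad_mem hG (hG.exp_mem _ hY) hy) hy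
  rw [h4, hπ.fix _ h5, ← h4, sub_eq_zero] at h3
  have h6 : Commute x (exp Y) := by
    show x * exp Y = exp Y * x
    have h7 : ((eu Y : Aˣ) : A) * x = x * ((eu Y : Aˣ) : A) := by
      calc ((eu Y : Aˣ) : A) * x = ((eu Y : Aˣ) : A) * x * (((eu Y)⁻¹ : Aˣ) : A) * ((eu Y : Aˣ) : A) := by
            rw [mul_assoc _ (((eu Y)⁻¹ : Aˣ) : A), Units.inv_mul, mul_one]
        _ = x * ((eu Y : Aˣ) : A) := by rw [h3]
    exact h7.symm
  have h7 := hcomm Y x hYρ h6
  rw [hxy] at h7 ⊢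
  exact br_cen_zero hss hy h7.symm

theorem ident_all (hG : IsLie G g) (hY : Y ∈ g) (hss : SS g Y) (hab : Abel g Y) (hπ : IsProj g Y π)
    {ρ : ℝ} (hcomm : ∀ E X : A, ‖E‖ < ρ → Commute X (exp E) → Commute X E) (hYρ : ‖Y‖ < ρ)
    {u : Aˣ} (hu : u ∈ G) : Ident g Y π u := by
  -- near `Y`
  have hdet0 := det_exp hG hY hss hπ hcomm hYρ
  have hdetc : ContinuousAt (fun W : A => LinearMap.det (TT π (eu W))) Y := by
    have h1 : ∀ z, Continuous fun W : A => TT π (eu W) z := by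
      intro z
      let π' : A →L[ℝ] A := LinearMap.toContinuousLinearMap π
      have e : (fun W : A => TT π (eu W) z) =
          fun W => π' (((eu W : Aˣ) : A) * z * (((eu W)⁻¹ : Aˣ) : A) - z) + (z - π z) := rfl
      rw [e]
      have h2 : Continuous fun W : A => ((eu W : Aˣ) : A) := exp_cont
      have h3 : Continuous fun W : A => (((eu W)⁻¹ : Aˣ) : A) := by
        have : (fun W : A => (((eu W)⁻¹ : Aˣ) : A)) = fun W => exp (-W) := rfl
        rw [this]
        exact exp_cont.comp continuous_neg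
      fun_prop
    have h4 : Continuous fun W : A => LinearMap.toMatrix (bas A) (bas A) (TT π (eu W)) := by
      refine continuous_matrix fun i j => ?_
      let l : A →L[ℝ] ℝ := LinearMap.toContinuousLinearMap ((bas A).coord i)
      have h5 : (fun W => LinearMap.toMatrix (bas A) (bas A) (TT π (eu W)) i j) =
          fun W => l (TT π (eu W) (bas A j)) := by
        funext W
        rw [LinearMap.toMatrix_apply]
        rfl
      rw [h5]
      exact l.continuous.comp (h1 _)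
    have h6 : (fun W : A => LinearMap.det (TT π (eu W))) =
        fun W => (LinearMap.toMatrix (bas A) (bas A) (TT π (eu W))).det := by
      funext W
      rw [LinearMap.det_toMatrix]
    rw [h6]
    exact h4.matrix_det.continuousAt
  obtain ⟨δ₁, hδ₁, hdet⟩ := Metric.eventually_nhds_iff.1 (hdetc.eventually_ne hdet0)
  obtain ⟨δ₂, hδ₂, honto⟩ := conj_onto hG hY hss 1 one_pos
  have hnear : ∀ W ∈ g, ‖W - Y‖ < min δ₁ δ₂ → Ident g Y π (eu W) := by
    intro W hW hWY
    have hd : LinearMap.det (TT π (eu W)) ≠ 0 := by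
      apply hdet
      rw [dist_eq_norm]
      exact lt_of_lt_of_le hWY (min_le_left _ _)
    obtain ⟨U, hU, C, hC, -, -, hWe⟩ := honto W hW (lt_of_lt_of_le hWY (min_le_right _ _))
    have hWe' : eu W = eu U * eu C * (eu U)⁻¹ := by
      rw [← eu_conj, hWe]
      rfl
    have hkk := near hG hY hss hab hπ (hG.exp_mem U hU) hC hWe' hd
    constructor
    · intro z hz
      obtain ⟨y, hy, hyz⟩ := hkk z hz
      rw [br_eq_zero, hyz, hWe', Units.val_mul, Units.val_mul]
      exact unit_conj_comm (comm_eu (hab y hy C hC)).symm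
    · intro z hz z' hz'
      obtain ⟨y, hy, hyz⟩ := hkk z hz
      obtain ⟨y', hy', hyz'⟩ := hkk z' hz'
      rw [br_eq_zero, hyz, hyz']
      exact unit_conj_comm (hab y hy y' hy')
  -- all exponentials
  have hexp : ∀ W ∈ g, Ident g Y π (eu W) := by
    intro W hW
    have hf : An fun t : ℝ => Y + t • (W - Y) := fun t => analyticAt_const.add (an_smul (W - Y) t)
    have h1 : ∀ᶠ t in 𝓝 (0 : ℝ), Ident g Y π (eu (Y + t • (W - Y))) := by
      have hc : Continuous fun t : ℝ => ‖t • (W - Y)‖ := by fun_prop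
      have h2 := hc.tendsto 0
      rw [zero_smul, norm_zero] at h2
      filter_upwards [h2.eventually (gt_mem_nhds (lt_min hδ₁ hδ₂))] with t ht
      apply hnear _ (g.add_mem hY (g.smul_mem _ (g.sub_mem hW hY)))
      rwa [add_sub_cancel_left]
    have h3 := ident_curve (ac_eu hf) h1 1
    simpa using h3
  -- near `1`
  obtain ⟨δ, hδ, hlog⟩ := hG.log 1 one_pos
  have hone : ∀ v ∈ G, ‖(v : A) - 1‖ < δ → Ident g Y π v := by
    intro v hv hvδ
    obtain ⟨W, hW, -, rfl⟩ := hlog v hv hvδ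
    exact hexp W hW
  obtain ⟨L, hL, rfl⟩ := hG.conn u hu
  have hAC := ac_list L
  have hmem : ∀ t : ℝ, (L.map fun W => eu (t • W)).prod ∈ G := by
    intro t
    apply Subgroup.list_prod_mem
    intro v hv
    obtain ⟨W, hW, rfl⟩ := List.mem_map.1 hv
    exact hG.exp_mem _ (g.smul_mem _ (hL W hW))
  have h1 : ∀ᶠ t in 𝓝 (0 : ℝ), Ident g Y π (L.map fun W => eu (t • W)).prod := by
    have hc : ContinuousAt (fun t : ℝ => ‖(((L.map fun W => eu (t • W)).prod : Aˣ) : A) - 1‖) 0 :=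
      ((hAC.1 0).continuousAt.sub continuousAt_const).norm
    have h2 := hc.tendsto
    have e : (L.map fun W : A => eu ((0 : ℝ) • W)).prod = 1 := by
      apply List.prod_eq_one
      intro v hv
      obtain ⟨W, -, rfl⟩ := List.mem_map.1 hv
      rw [zero_smul, eu_zero]
    simp only [e, Units.val_one, sub_self, norm_zero] at h2
    filter_upwards [h2.eventually (gt_mem_nhds hδ)] with t ht
    exact hone _ (hmem t) ht
  have h3 := ident_curve hAC h1 1
  simpa using h3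

/-- Regular elements of `G`. -/
def Reg (g : Submodule ℝ A) (u : Aˣ) : Prop :=
  ∃ Z ∈ g, SS g Z ∧ Abel g Z ∧ ∀ C ∈ cen g Z, Commute (u : A) C

/-- the function whose zeros contain all elements which are not regular -/
noncomputable def PP (Y : A) (π : A →ₗ[ℝ] A) (u : Aˣ) : ℝ :=
  LinearMap.det (TT π u) * LinearMap.det (TS π (KK π u Y))

theorem an_PP (Y : A) (π : A →ₗ[ℝ] A) {u : ℝ → Aˣ} (hu : AC u) : An fun t => PP Y π (u t) := by
  intro t
  have h1 := an_detL (fun z => an_TT π hu z) t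
  have h2 := an_detL (fun z => an_TS π (an_KK π hu Y) z) t
  exact h1.mul h2

theorem KK_mem (hG : IsLie G g) (hY : Y ∈ g) (hπ : IsProj g Y π) {u : Aˣ}
    {z : A} (hz : z ∈ cen g Y) : KK π u z ∈ g := by
  have h1 := KK_spec π u z
  rw [TT_apply] at h1
  obtain ⟨x, hx⟩ : ∃ x, x = KK π u z := ⟨_, rfl⟩
  rw [← hx] at h1 ⊢
  have h3 : x = LinearMap.det (TT π u) • z - π ((u : A) * x * ((u⁻¹ : Aˣ) : A) - x) + π x := by
    rw [← h1]
    abel
  rw [h3]
  exact g.add_mem (g.sub_mem (g.smul_mem _ hz.1) (hπ.mem hG hY _)) (hπ.mem hG hY _)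

theorem reg_of_PP (hG : IsLie G g) (hY : Y ∈ g) (hss : SS g Y) (hπ : IsProj g Y π)
    {u : Aˣ} (hid : Ident g Y π u) (hP : PP Y π u ≠ 0) : Reg g u := by
  obtain ⟨h1, h2⟩ := mul_ne_zero_iff.1 hP
  have hYc : Y ∈ cen g Y := ⟨hY, Commute.refl Y⟩
  obtain ⟨Z, hZ⟩ : ∃ Z, Z = KK π u Y := ⟨_, rfl⟩
  rw [← hZ] at h2
  have hZg : Z ∈ g := by rw [hZ]; exact KK_mem hG hY hπ hYc
  have hKZ : ∀ z ∈ cen g Y, br Z (KK π u z) = 0 := by
    intro z hz
    rw [hZ]
    exact hid.2 Y hYc z hz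
  have hb0 : br Z (0 : A) = 0 := by unfold br; simp
  have hmap : ∀ x ∈ g, br Z (br Z x) = 0 → TS π Z x ∈ cen g Y := by
    intro x hx h
    rw [TS_apply, h, map_zero, zero_add]
    exact hπ.compl hG hY hss hx
  have hKinj : ∀ z, KK π u z = 0 → z = 0 := by
    intro z hz
    have := KK_spec π u z
    rw [hz, map_zero] at this
    exact (smul_eq_zero.1 this.symm).resolve_left h1
  have hfull : ∀ x ∈ g, br Z (br Z x) = 0 → ∃ z ∈ cen g Y, x = KK π u z := by
    intro x hx h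
    obtain ⟨z, hz, hzx⟩ := surj_cen (cen g Y) (TS π Z ∘ₗ KK π u) (fun z hz =>
      hmap _ (KK_mem hG hY hπ hz) (by rw [hKZ z hz, hb0])) (fun z hz h0 => by
        apply hKinj
        apply inj_of_det h2
        rw [map_zero]
        exact h0) _ (hmap x hx h)
    exact ⟨z, hz, inj_of_det h2 hzx.symm⟩
  refine ⟨Z, hZg, ?_, ?_, ?_⟩
  · intro U hU h
    obtain ⟨z, hz, hUz⟩ := hfull U hU (br_eq_zero.2 h)
    rw [hUz]
    exact br_eq_zero.1 (hKZ z hz)
  · intro U hU U' hU'
    obtain ⟨z, hz, hUz⟩ := hfull U hU.1 (by rw [br_eq_zero.2 hU.2, hb0])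
    obtain ⟨z', hz', hUz'⟩ := hfull U' hU'.1 (by rw [br_eq_zero.2 hU'.2, hb0])
    rw [hUz, hUz']
    exact br_eq_zero.1 (hid.2 z hz z' hz')
  · intro C hC
    obtain ⟨z, hz, hCz⟩ := hfull C hC.1 (by rw [br_eq_zero.2 hC.2, hb0])
    rw [hCz]
    exact br_eq_zero.1 (hid.1 z hz)

theorem PP_exp (hG : IsLie G g) (hY : Y ∈ g) (hss : SS g Y) (hπ : IsProj g Y π)
    {ρ : ℝ} (hcomm : ∀ E X : A, ‖E‖ < ρ → Commute X (exp E) → Commute X E) (hYρ : ‖Y‖ < ρ) :
    PP Y π (eu Y) ≠ 0 := by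
  have h1 := det_exp hG hY hss hπ hcomm hYρ
  have hYc : Y ∈ cen g Y := ⟨hY, Commute.refl Y⟩
  obtain ⟨d, hd⟩ : ∃ d, d = LinearMap.det (TT π (eu Y)) := ⟨_, rfl⟩
  have hKY : KK π (eu Y) Y = d • Y := by
    apply inj_of_det h1
    rw [KK_spec, map_smul, ← hd]
    congr 1
    have h2 : ((eu Y : Aˣ) : A) * Y * (((eu Y)⁻¹ : Aˣ) : A) = Y := by
      have hcY : Commute Y ((eu Y : Aˣ) : A) := comm_eu (Commute.refl Y)
      rw [hcY.symm.eq, mul_assoc, Units.mul_inv, mul_one]
    rw [TT_apply, h2, sub_self, map_zero, zero_add, hπ.ker Y hYc, sub_zero]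
  refine mul_ne_zero h1 ?_
  rw [hKY]
  apply det_of_inj
  intro x hx
  rw [TS_apply] at hx
  have hb : br (d • Y) (br (d • Y) x) = (d * d) • br Y (br Y x) := by
    unfold br
    simp only [smul_mul_assoc, mul_smul_comm, ← smul_sub, smul_smul]
  have h2 : π (x - π x) = 0 := by rw [map_sub, hπ.idem, sub_self]
  have h3 : π (br (d • Y) (br (d • Y) x)) = 0 := by
    have := congrArg π hx
    rw [map_add, hπ.idem, h2, add_zero, map_zero] at this
    exact this
  rw [h3, zero_add, sub_eq_zero] at hx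
  obtain ⟨y, hy, hxy⟩ := hπ.range x
  rw [← hx] at hxy
  have hdd : d * d ≠ 0 := mul_ne_zero (by rw [hd]; exact h1) (by rw [hd]; exact h1)
  rw [hb, map_smul] at h3
  have h4 := (smul_eq_zero.1 h3).resolve_left hdd
  have hxg : x ∈ g := by rw [hxy]; exact br_mem hG hY hy
  rw [hπ.fix _ (br_mem hG hY hxg)] at h4
  have h5 : Commute Y x := hss x hxg (br_eq_zero.1 h4)
  rw [hxy] at h5 ⊢
  exact br_cen_zero hss hy h5

end

end Run7.h619.HG
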